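import Mathlib

/-! Exponential sums over the values of multiplicative functions, part 2: the inequality of Turán and
Kubilius for the prime divisors from a finite set, and its consequence for sums of bounded functions. -/

set_option autoImplicit false

namespace Pool.Agent.J4.H74.MulExp

open Finset

/-- the number of the elements of `P` which divide `m` -/
def om (P : Finset ℕ) (m : ℕ) : ℕ := (P.filter (fun p => p ∣ m)).card

/-- the sum of the reciprocals -/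
noncomputable def LL (P : Finset ℕ) : ℝ := ∑ p ∈ P, 1 / (p : ℝ)

lemma LL_nonneg (P : Finset ℕ) : 0 ≤ LL P := Finset.sum_nonneg fun _ _ => by positivity

/-- the multiples of `p` -/
lemma sum_mult {p : ℕ} (hp : 0 < p) (M : ℕ) {R : Type} [AddCommMonoid R] (f : ℕ → R) :
    ∑ m ∈ (Ioc 0 M).filter (fun m => p ∣ m), f m = ∑ n ∈ Ioc 0 (M / p), f (p * n) := by
  symm
  apply Finset.sum_nbij' (fun n => p * n) (fun m => m / p)
  · intro n hn
    rw [mem_Ioc] at hn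
    rw [mem_filter, mem_Ioc]
    have h1 := (Nat.le_div_iff_mul_le hp).1 hn.2
    refine ⟨⟨Nat.mul_pos hp hn.1, by rw [mul_comm]; exact h1⟩, dvd_mul_right _ _⟩
  · intro m hm
    rw [mem_filter, mem_Ioc] at hm
    rw [mem_Ioc]
    refine ⟨Nat.div_pos (Nat.le_of_dvd hm.1.1 hm.2) hp, Nat.div_le_div_right hm.1.2⟩
  · intro n _
    exact Nat.mul_div_cancel_left n hp
  · intro m hm
    rw [mem_filter] at hm
    exact Nat.mul_div_cancel' hm.2
  · intro n _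
    rfl

lemma sum_om_mul {P : Finset ℕ} (hP : ∀ p ∈ P, p.Prime) (M : ℕ) (f : ℕ → ℂ) :
    ∑ m ∈ Ioc 0 M, (om P m : ℂ) * f m = ∑ p ∈ P, ∑ n ∈ Ioc 0 (M / p), f (p * n) := by
  have h1 : ∀ m, (om P m : ℂ) * f m = ∑ p ∈ P, if p ∣ m then f m else 0 := by
    intro m
    rw [← Finset.sum_filter, Finset.sum_const, nsmul_eq_mul]
    rfl
  simp only [h1]
  rw [Finset.sum_comm]
  refine Finset.sum_congr rfl fun p hp => ?_
  rw [← Finset.sum_filter]
  exact sum_mult (hP p hp).pos M f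

lemma card_mult (p M : ℕ) : (((Ioc 0 M).filter (fun m => p ∣ m)).card : ℝ) ≤ M / p := by
  rw [Nat.Ioc_filter_dvd_card_eq_div]
  exact Nat.cast_div_le

lemma card_mult_ge {p : ℕ} (hp : 0 < p) (M : ℕ) :
    (M : ℝ) / p - 1 ≤ (((Ioc 0 M).filter (fun m => p ∣ m)).card : ℝ) := by
  rw [Nat.Ioc_filter_dvd_card_eq_div]
  have h1 : (M : ℝ) / p < ((M / p : ℕ) : ℝ) + 1 := by
    rw [div_lt_iff₀ (by exact_mod_cast hp)]
    have h2 := Nat.div_add_mod M p
    have h3 := Nat.mod_lt M hp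
    have h4 : M < (M / p + 1) * p := by
      calc M = p * (M / p) + M % p := h2.symm
        _ < p * (M / p) + p := by omega
        _ = (M / p + 1) * p := by ring
    exact_mod_cast h4
  linarith

/-- **the inequality of Turán and Kubilius** -/
theorem turan {P : Finset ℕ} (hP : ∀ p ∈ P, p.Prime) {M : ℕ} (hM : P.card ≤ M) :
    ∑ m ∈ Ioc 0 M, ((om P m : ℝ) - LL P) ^ 2 ≤ 3 * M * LL P := by
  classical
  have hL := LL_nonneg P
  have hom : ∀ m, (om P m : ℝ) = ∑ p ∈ P, if p ∣ m then (1 : ℝ) else 0 := by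
    intro m
    unfold om
    rw [Finset.card_filter]
    push_cast
    rfl
  have h1 : (M : ℝ) * LL P - M ≤ ∑ m ∈ Ioc 0 M, (om P m : ℝ) := by
    simp only [hom]
    rw [Finset.sum_comm]
    have h2 : ∀ p ∈ P, (M : ℝ) * (1 / p) - 1 ≤ ∑ m ∈ Ioc 0 M, if p ∣ m then (1 : ℝ) else 0 := by
      intro p hp
      rw [← Finset.sum_filter, Finset.sum_const, nsmul_eq_mul, mul_one]
      have := card_mult_ge (hP p hp).pos M
      rw [mul_one_div]
      exact this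
    have h3 := Finset.sum_le_sum h2
    rw [Finset.sum_sub_distrib, ← Finset.mul_sum, Finset.sum_const, nsmul_eq_mul, mul_one] at h3
    have h4 : (P.card : ℝ) ≤ M := by exact_mod_cast hM
    unfold LL
    linarith
  have h2 : ∑ m ∈ Ioc 0 M, (om P m : ℝ) ^ 2 ≤ M * LL P ^ 2 + M * LL P := by
    have e1 : ∀ m, (om P m : ℝ) ^ 2 = ∑ p ∈ P, ∑ q ∈ P, if p ∣ m ∧ q ∣ m then (1 : ℝ) else 0 := by
      intro m
      rw [hom, sq, Finset.sum_mul_sum]
      refine Finset.sum_congr rfl fun p _ => Finset.sum_congr rfl fun q _ => ?_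
      by_cases h3 : p ∣ m <;> by_cases h4 : q ∣ m <;> simp [h3, h4]
    simp only [e1]
    have e2 : ∑ m ∈ Ioc 0 M, ∑ p ∈ P, ∑ q ∈ P, (if p ∣ m ∧ q ∣ m then (1 : ℝ) else 0) =
        ∑ p ∈ P, ∑ q ∈ P, ∑ m ∈ Ioc 0 M, (if p ∣ m ∧ q ∣ m then (1 : ℝ) else 0) := by
      rw [Finset.sum_comm]
      refine Finset.sum_congr rfl fun p _ => ?_
      rw [Finset.sum_comm]
    rw [e2]
    have h3 : ∀ p ∈ P, ∀ q ∈ P, ∑ m ∈ Ioc 0 M, (if p ∣ m ∧ q ∣ m then (1 : ℝ) else 0) ≤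
        M * (1 / p) * (1 / q) + (if q = p then (M : ℝ) * (1 / p) else 0) := by
      intro p hp q hq
      rw [← Finset.sum_filter, Finset.sum_const, nsmul_eq_mul, mul_one]
      by_cases hpq : q = p
      · subst hpq
        rw [if_pos rfl]
        have h4 : (Ioc 0 M).filter (fun m => q ∣ m ∧ q ∣ m) = (Ioc 0 M).filter (fun m => q ∣ m) := by
          ext m
          simp
        rw [h4]
        have h5 := card_mult q M
        have h6 : 0 ≤ (M : ℝ) * (1 / q) * (1 / q) := by positivity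
        have h7 : (M : ℝ) * (1 / q) = M / q := mul_one_div _ _
        linarith
      · rw [if_neg hpq, add_zero]
        have h4 : (Ioc 0 M).filter (fun m => p ∣ m ∧ q ∣ m) =
            (Ioc 0 M).filter (fun m => (p * q) ∣ m) := by
          ext m
          simp only [mem_filter]
          have hc : Nat.Coprime p q := (Nat.coprime_primes (hP p hp) (hP q hq)).2 (fun h => hpq h.symm)
          constructor
          · rintro ⟨h5, h6, h7⟩
            exact ⟨h5, hc.mul_dvd_of_dvd_of_dvd h6 h7⟩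
          · rintro ⟨h5, h6⟩
            exact ⟨h5, (dvd_mul_right _ _).trans h6, (dvd_mul_left _ _).trans h6⟩
        rw [h4]
        refine (card_mult (p * q) M).trans (le_of_eq ?_)
        push_cast
        rw [mul_assoc, one_div_mul_one_div, mul_one_div]
    refine (Finset.sum_le_sum fun p hp => Finset.sum_le_sum (h3 p hp)).trans (le_of_eq ?_)
    have e3 : ∀ p ∈ P, ∑ q ∈ P, ((M : ℝ) * (1 / p) * (1 / q) + (if q = p then (M : ℝ) * (1 / p) else 0)) =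
        M * (1 / p) * LL P + M * (1 / p) := by
      intro p hp
      rw [Finset.sum_add_distrib, ← Finset.mul_sum, Finset.sum_ite_eq' P p, if_pos hp]
      rfl
    rw [Finset.sum_congr rfl e3, Finset.sum_add_distrib, ← Finset.sum_mul, ← Finset.mul_sum]
    unfold LL
    ring
  have h3 : ∑ m ∈ Ioc 0 M, ((om P m : ℝ) - LL P) ^ 2 = ∑ m ∈ Ioc 0 M, (om P m : ℝ) ^ 2 -
      2 * LL P * ∑ m ∈ Ioc 0 M, (om P m : ℝ) + M * LL P ^ 2 := by
    have e1 : ∀ m, ((om P m : ℝ) - LL P) ^ 2 = (om P m : ℝ) ^ 2 - 2 * LL P * om P m + LL P ^ 2 := by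
      intro m
      ring
    simp only [e1]
    rw [Finset.sum_add_distrib, Finset.sum_sub_distrib, ← Finset.mul_sum, Finset.sum_const,
      Nat.card_Ioc, nsmul_eq_mul]
    simp
  rw [h3]
  have h4 : 2 * LL P * ((M : ℝ) * LL P - M) ≤ 2 * LL P * ∑ m ∈ Ioc 0 M, (om P m : ℝ) :=
    mul_le_mul_of_nonneg_left h1 (by linarith)
  nlinarith

/-- one step -/
theorem one_step {P : Finset ℕ} (hP : ∀ p ∈ P, p.Prime) {M : ℕ} (hM : P.card ≤ M) (hL : 0 < LL P)
    {h : ℕ → ℂ} (hh : ∀ m, ‖h m‖ ≤ 1) :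
    ‖∑ m ∈ Ioc 0 M, h m - (1 / LL P : ℝ) * ∑ p ∈ P, ∑ n ∈ Ioc 0 (M / p), h (p * n)‖ ≤
      2 * M / Real.sqrt (LL P) := by
  have hs : 0 < Real.sqrt (LL P) := Real.sqrt_pos.2 hL
  have hLc : (LL P : ℂ) ≠ 0 := by exact_mod_cast hL.ne'
  rw [← sum_om_mul hP M h, Finset.mul_sum, ← Finset.sum_sub_distrib]
  have e1 : ∀ m, h m - ((1 / LL P : ℝ) : ℂ) * ((om P m : ℂ) * h m) =
      ((1 / LL P * (LL P - om P m) : ℝ) : ℂ) * h m := by
    intro m
    push_cast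
    field_simp
  simp only [e1]
  refine (norm_sum_le _ _).trans ?_
  have h1 : ∀ m ∈ Ioc 0 M, ‖((1 / LL P * (LL P - om P m) : ℝ) : ℂ) * h m‖ ≤
      1 / LL P * |(om P m : ℝ) - LL P| := by
    intro m _
    rw [norm_mul, Complex.norm_real, Real.norm_eq_abs, abs_mul, abs_of_pos (by positivity : 0 < 1 / LL P),
      abs_sub_comm]
    exact mul_le_of_le_one_right (by positivity) (hh m)
  refine (Finset.sum_le_sum h1).trans ?_
  rw [← Finset.mul_sum]
  have h2 : (∑ m ∈ Ioc 0 M, |(om P m : ℝ) - LL P|) ^ 2 ≤ (2 * M * Real.sqrt (LL P)) ^ 2 := by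
    have h3 := sq_sum_le_card_mul_sum_sq (s := Ioc 0 M) (f := fun m => |(om P m : ℝ) - LL P|)
    simp only [sq_abs] at h3
    refine h3.trans ?_
    rw [Nat.card_Ioc, Nat.sub_zero, mul_pow, Real.sq_sqrt hL.le]
    have h4 := mul_le_mul_of_nonneg_left (turan hP hM) (Nat.cast_nonneg (α := ℝ) M)
    have h5 : (0 : ℝ) ≤ (M : ℝ) ^ 2 * LL P := by positivity
    nlinarith
  have h3 := le_of_sq_le_sq h2 (by positivity)
  rw [one_div, ← div_eq_inv_mul, div_le_div_iff₀ hL hs]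
  have h4 := mul_le_mul_of_nonneg_right h3 hs.le
  have h5 : Real.sqrt (LL P) * Real.sqrt (LL P) = LL P := Real.mul_self_sqrt hL.le
  calc (∑ m ∈ Ioc 0 M, |(om P m : ℝ) - LL P|) * Real.sqrt (LL P)
      ≤ 2 * M * Real.sqrt (LL P) * Real.sqrt (LL P) := h4
    _ = 2 * M * LL P := by rw [mul_assoc, h5]

/-- **two steps** -/
theorem two_steps {P : Finset ℕ} (hP : ∀ p ∈ P, p.Prime) {N : ℕ} (hN : ∀ p ∈ P, P.card ≤ N / p)
    (hN' : P.card ≤ N) (hL : 0 < LL P) {h : ℕ → ℂ} (hh : ∀ m, ‖h m‖ ≤ 1) :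
    ‖∑ m ∈ Ioc 0 N, h m‖ ≤ 4 * N / Real.sqrt (LL P) +
      1 / LL P ^ 2 * ‖∑ p ∈ P, ∑ q ∈ P, ∑ k ∈ Ioc 0 (N / (p * q)), h (p * q * k)‖ := by
  have hs : 0 < Real.sqrt (LL P) := Real.sqrt_pos.2 hL
  have hN0 : (0 : ℝ) ≤ N := Nat.cast_nonneg N
  obtain ⟨S1, hS1⟩ : ∃ S1, S1 = ∑ m ∈ Ioc 0 N, h m := ⟨_, rfl⟩
  obtain ⟨S2, hS2⟩ : ∃ S2, S2 = ∑ p ∈ P, ∑ n ∈ Ioc 0 (N / p), h (p * n) := ⟨_, rfl⟩
  obtain ⟨S3, hS3⟩ : ∃ S3, S3 = ∑ p ∈ P, ∑ q ∈ P, ∑ k ∈ Ioc 0 (N / (p * q)), h (p * q * k) := ⟨_, rfl⟩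
  have h1 := one_step hP hN' hL hh
  rw [← hS1, ← hS2] at h1
  have h2 : ‖S2 - (1 / LL P : ℝ) * S3‖ ≤ LL P * (2 * N / Real.sqrt (LL P)) := by
    rw [hS2, hS3, Finset.mul_sum, ← Finset.sum_sub_distrib]
    refine (norm_sum_le _ _).trans ?_
    have h3 : ∀ p ∈ P, ‖∑ n ∈ Ioc 0 (N / p), h (p * n) -
        ((1 / LL P : ℝ) : ℂ) * ∑ q ∈ P, ∑ k ∈ Ioc 0 (N / (p * q)), h (p * q * k)‖ ≤
        1 / (p : ℝ) * (2 * N / Real.sqrt (LL P)) := by
      intro p hp
      have h4 := one_step hP (hN p hp) hL (h := fun n => h (p * n)) (fun n => hh _)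
      have e1 : ∑ q ∈ P, ∑ n ∈ Ioc 0 (N / p / q), h (p * (q * n)) =
          ∑ q ∈ P, ∑ k ∈ Ioc 0 (N / (p * q)), h (p * q * k) := by
        refine Finset.sum_congr rfl fun q _ => ?_
        rw [Nat.div_div_eq_div_mul]
        exact Finset.sum_congr rfl fun k _ => by rw [mul_assoc]
      rw [e1] at h4
      refine h4.trans ?_
      have h5 : ((N / p : ℕ) : ℝ) ≤ N / p := Nat.cast_div_le
      calc 2 * ((N / p : ℕ) : ℝ) / Real.sqrt (LL P) ≤ 2 * (N / p) / Real.sqrt (LL P) := by gcongr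
        _ = 1 / (p : ℝ) * (2 * N / Real.sqrt (LL P)) := by ring
    refine (Finset.sum_le_sum h3).trans (le_of_eq ?_)
    rw [← Finset.sum_mul]
    rfl
  have h3 : ‖S1‖ ≤ 2 * N / Real.sqrt (LL P) + 1 / LL P * ‖S2‖ := by
    have h4 := norm_le_norm_sub_add S1 (((1 / LL P : ℝ) : ℂ) * S2)
    have h5 : ‖((1 / LL P : ℝ) : ℂ) * S2‖ = 1 / LL P * ‖S2‖ := by
      rw [norm_mul, Complex.norm_real, Real.norm_eq_abs, abs_of_pos (by positivity)]
    rw [h5] at h4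
    linarith
  have h4 : ‖S2‖ ≤ LL P * (2 * N / Real.sqrt (LL P)) + 1 / LL P * ‖S3‖ := by
    have h4 := norm_le_norm_sub_add S2 (((1 / LL P : ℝ) : ℂ) * S3)
    have h5 : ‖((1 / LL P : ℝ) : ℂ) * S3‖ = 1 / LL P * ‖S3‖ := by
      rw [norm_mul, Complex.norm_real, Real.norm_eq_abs, abs_of_pos (by positivity)]
    rw [h5] at h4
    linarith
  have h5 : 1 / LL P * ‖S2‖ ≤ 1 / LL P * (LL P * (2 * N / Real.sqrt (LL P)) + 1 / LL P * ‖S3‖) :=
    mul_le_mul_of_nonneg_left h4 (by positivity)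
  have e1 : 1 / LL P * (LL P * (2 * N / Real.sqrt (LL P)) + 1 / LL P * ‖S3‖) =
      2 * N / Real.sqrt (LL P) + 1 / LL P ^ 2 * ‖S3‖ := by
    field_simp
  rw [e1] at h5
  have e2 : 4 * (N : ℝ) / Real.sqrt (LL P) = 2 * N / Real.sqrt (LL P) + 2 * N / Real.sqrt (LL P) := by
    ring
  rw [e2, ← hS1, ← hS3]
  linarith

end Pool.Agent.J4.H74.MulExp
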