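import Pool.Agent.J4.H74.MulExp.Sp
import Pool.Agent.J4.H74.MulExp.TK
import Pool.Agent.N733.TG.K

/-! Exponential sums over the values of multiplicative functions, part 4: assembly. -/

set_option autoImplicit false

namespace Pool.Agent.J4.H74.MulExp

open Finset Filter
open Pool.Agent.H469R2.NK (e norm_e e_add)

/-- positive multiplicative functions of polynomial growth with `f(p) = b p + a` for the large primes -/
structure Aff (f : ℕ → ℕ) : Prop where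
  mul : ∀ m n : ℕ, Nat.Coprime m n → f (m * n) = f m * f n
  pos : ∀ m : ℕ, 1 ≤ m → 1 ≤ f m
  growth : ∃ C D : ℕ, ∀ m : ℕ, 1 ≤ m → f m ≤ C * m ^ D
  prime : ∃ (P b : ℕ) (a : ℤ), 1 ≤ b ∧ ∀ p : ℕ, P ≤ p → p.Prime → (f p : ℤ) = b * p + a

lemma Aff.lm {f : ℕ → ℕ} (hf : Aff f) : Pool.Agent.N733.TG.LM f := by
  refine ⟨hf.mul, hf.pos, hf.growth, ?_⟩
  obtain ⟨P, b, a, hb, h⟩ := hf.prime
  refine ⟨P, b + a.natAbs, fun p hp hpp => ⟨?_, fun q hq hqp hfq => ?_⟩⟩
  · have h1 := h p hp hpp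
    have h2 : (f p : ℤ) ≤ ((b + a.natAbs) * p : ℕ) := by
      rw [h1]
      push_cast
      have h3 : a ≤ |a| := le_abs_self a
      have h4 : (1 : ℤ) ≤ p := by exact_mod_cast hpp.one_le
      nlinarith [abs_nonneg a]
    exact_mod_cast h2
  · have h1 := h p hp hpp
    have h2 := h q hq hqp
    rw [hfq, h1] at h2
    have h3 : (b : ℤ) * (p - q) = 0 := by linarith
    have hb0 : (b : ℤ) ≠ 0 := by
      have : b ≠ 0 := by omega
      exact_mod_cast this
    rcases mul_eq_zero.1 h3 with h4 | h4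
    · exact absurd h4 hb0
    · omega

/-- **the values with a near multiple are exceptional** -/
theorem bad_of {θ : ℝ} {τ : ℕ} {c : ℝ} (hτ : 1 ≤ τ) (hc : 0 < c)
    (hL : ∀ h : ℕ, 1 ≤ h → ∀ k : ℤ, c / (h : ℝ) ^ τ ≤ |θ * h - k|) {δ ρ κ : ℝ} (hδ : 0 < δ) (hδ1 : δ ≤ 1)
    {C D : ℕ} (hD : 1 ≤ D) (hρ : ρ = δ / (32 * τ * D)) (hκ : κ = ρ * (δ / (4 * τ))) :
    ∀ᶠ N : ℕ in atTop, ∀ z Δ : ℕ, (N : ℝ) ^ δ ≤ z → (Δ : ℝ) ≤ (N : ℝ) ^ κ →
      ∀ u : ℕ, 1 ≤ u → u ≤ C * N ^ D → ∀ h : ℕ, 1 ≤ h → h ≤ Δ →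
        ¬ Far (4 * Δ / z) (θ * (u * h : ℕ)) → u ∈ EE θ τ ρ := by
  have hτ0 : (0 : ℝ) < τ := by exact_mod_cast (by omega : 0 < τ)
  have hτ1 : (1 : ℝ) ≤ τ := by exact_mod_cast hτ
  have hD0 : (0 : ℝ) < D := by exact_mod_cast (by omega : 0 < D)
  have hD1 : (1 : ℝ) ≤ D := by exact_mod_cast hD
  have hρ0 : 0 < ρ := by rw [hρ]; positivity
  have hρ1 : ρ ≤ 1 / 32 := by
    rw [hρ, div_le_div_iff₀ (by positivity) (by norm_num)]
    have : (1 : ℝ) ≤ τ * D := by nlinarith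
    nlinarith
  have hκ0 : 0 < κ := by rw [hκ]; positivity
  have hκ1 : κ ≤ δ / (4 * τ) := by
    rw [hκ]
    exact mul_le_of_le_one_left (by positivity) (by linarith)
  have hκ2 : δ / (4 * τ) ≤ δ / 4 := by
    apply div_le_div_of_nonneg_left hδ.le (by norm_num)
    linarith
  have hE1 : ∀ᶠ N : ℕ in atTop, 4 / c ≤ (N : ℝ) ^ (δ / 4) :=
    ((tendsto_rpow_atTop (by positivity : 0 < δ / 4)).comp tendsto_natCast_atTop_atTop).eventually_ge_atTop _
  have hE2 : ∀ᶠ N : ℕ in atTop, 4 * (C : ℝ) ^ (δ / (4 * D)) ≤ (N : ℝ) ^ (δ / 2) :=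
    ((tendsto_rpow_atTop (by positivity : 0 < δ / 2)).comp tendsto_natCast_atTop_atTop).eventually_ge_atTop _
  filter_upwards [hE1, hE2, eventually_ge_atTop 1] with N hN1 hN2 hN z Δ hz hΔ u hu1 hu h hh1 hh2 hfar
  have hX0 : (0 : ℝ) < N := by exact_mod_cast hN
  have hX1 : (1 : ℝ) ≤ N := by exact_mod_cast hN
  have hu0 : (0 : ℝ) < u := by exact_mod_cast hu1
  unfold Far at hfar
  push Not at hfar
  obtain ⟨k, hk⟩ := hfar
  have hz0 : (0 : ℝ) < z := lt_of_lt_of_le (by positivity) hz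
  have h1 : 4 * (Δ : ℝ) / z ≤ 4 * (N : ℝ) ^ (κ - δ) := by
    rw [Real.rpow_sub hX0, div_le_iff₀ hz0]
    calc 4 * (Δ : ℝ) ≤ 4 * (N : ℝ) ^ κ := by linarith
      _ = 4 * ((N : ℝ) ^ κ / (N : ℝ) ^ δ) * (N : ℝ) ^ δ := by
          field_simp
      _ ≤ 4 * ((N : ℝ) ^ κ / (N : ℝ) ^ δ) * z := mul_le_mul_of_nonneg_left hz (by positivity)
  have hk' := hk.trans h1
  -- the product is large
  have huh : 1 ≤ u * h := Nat.mul_pos (by omega) (by omega)
  have h2 := (hL (u * h) huh k).trans hk'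
  obtain ⟨y, hy⟩ : ∃ y : ℝ, y = ((u * h : ℕ) : ℝ) := ⟨_, rfl⟩
  rw [← hy] at h2
  have hy0 : 0 < y := by rw [hy]; exact_mod_cast huh
  rw [div_le_iff₀ (by positivity)] at h2
  have h3 : (N : ℝ) ^ (δ / 2) ≤ y ^ (τ : ℕ) := by
    have h4 : c * (N : ℝ) ^ (δ - κ) ≤ 4 * y ^ τ := by
      calc c * (N : ℝ) ^ (δ - κ) ≤ (4 * (N : ℝ) ^ (κ - δ) * y ^ τ) * (N : ℝ) ^ (δ - κ) :=
            mul_le_mul_of_nonneg_right h2 (by positivity)
        _ = 4 * y ^ τ * ((N : ℝ) ^ (κ - δ) * (N : ℝ) ^ (δ - κ)) := by ring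
        _ = 4 * y ^ τ := by
            rw [← Real.rpow_add hX0, show κ - δ + (δ - κ) = 0 by ring, Real.rpow_zero, mul_one]
    have h5 : (N : ℝ) ^ (δ - κ) = (N : ℝ) ^ (δ / 2) * (N : ℝ) ^ (δ / 2 - κ) := by
      rw [← Real.rpow_add hX0]
      congr 1
      ring
    have h6 : 4 / c ≤ (N : ℝ) ^ (δ / 2 - κ) :=
      hN1.trans (Real.rpow_le_rpow_of_exponent_le hX1 (by linarith))
    rw [div_le_iff₀ hc] at h6
    rw [h5] at h4
    have h7 : 4 * (N : ℝ) ^ (δ / 2) ≤ (N : ℝ) ^ (δ / 2 - κ) * c * (N : ℝ) ^ (δ / 2) :=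
      mul_le_mul_of_nonneg_right h6 (by positivity)
    nlinarith
  have h4 : (N : ℝ) ^ (δ / (2 * τ)) ≤ y := by
    have h7 := Real.rpow_le_rpow (by positivity) h3 (by positivity : (0 : ℝ) ≤ 1 / (τ : ℝ))
    rw [← Real.rpow_natCast, ← Real.rpow_mul hy0.le, mul_one_div, div_self hτ0.ne', Real.rpow_one,
      ← Real.rpow_mul hX0.le] at h7
    have e1 : δ / 2 * (1 / (τ : ℝ)) = δ / (2 * τ) := by field_simp
    rw [e1] at h7
    exact h7
  have hhκ : (h : ℝ) ≤ (N : ℝ) ^ κ := le_trans (by exact_mod_cast hh2) hΔ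
  have h5 : (N : ℝ) ^ (δ / (4 * τ)) ≤ u := by
    have h6 : (N : ℝ) ^ (δ / (2 * τ)) ≤ u * (N : ℝ) ^ κ := by
      refine h4.trans ?_
      rw [hy]
      push_cast
      exact mul_le_mul_of_nonneg_left hhκ hu0.le
    have h7 : (N : ℝ) ^ (δ / (4 * τ)) * (N : ℝ) ^ κ ≤ (N : ℝ) ^ (δ / (2 * τ)) := by
      rw [← Real.rpow_add hX0]
      apply Real.rpow_le_rpow_of_exponent_le hX1
      have e1 : δ / (2 * τ) = δ / (4 * τ) + δ / (4 * τ) := by
        field_simp
        ring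
      linarith
    exact le_of_mul_le_mul_right (h7.trans h6) (by positivity)
  refine ⟨hu1, h, hh1, ?_, k, hk'.trans ?_⟩
  · refine hhκ.trans ?_
    have e1 : (N : ℝ) ^ κ = ((N : ℝ) ^ (δ / (4 * τ))) ^ ρ := by
      rw [← Real.rpow_mul hX0.le, hκ]
      congr 1
      ring
    rw [e1]
    exact Real.rpow_le_rpow (by positivity) h5 hρ0.le
  · rw [Real.rpow_neg hu0.le]
    rw [le_inv_comm₀ (by positivity) (by positivity)]
    have e1 : 8 * τ * ρ = δ / (4 * D) := by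
      rw [hρ]
      field_simp
      norm_num
    rw [e1]
    have h6 : (u : ℝ) ^ (δ / (4 * D)) ≤ (C : ℝ) ^ (δ / (4 * D)) * (N : ℝ) ^ (δ / 4) := by
      have h7 : (u : ℝ) ≤ C * (N : ℝ) ^ (D : ℕ) := by exact_mod_cast hu
      have h8 := Real.rpow_le_rpow hu0.le h7 (by positivity : 0 ≤ δ / (4 * D))
      rw [Real.mul_rpow (Nat.cast_nonneg _) (by positivity), ← Real.rpow_natCast (N : ℝ) D,
        ← Real.rpow_mul hX0.le] at h8
      have e2 : (D : ℝ) * (δ / (4 * D)) = δ / 4 := by field_simp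
      rw [e2] at h8
      exact h8
    refine h6.trans ?_
    have h7 : (C : ℝ) ^ (δ / (4 * D)) ≤ (N : ℝ) ^ (δ / 2) / 4 := by linarith
    have h8 : (4 * (N : ℝ) ^ (κ - δ))⁻¹ = (N : ℝ) ^ (δ - κ) / 4 := by
      rw [mul_inv, ← Real.rpow_neg hX0.le, neg_sub]
      ring
    rw [h8]
    calc (C : ℝ) ^ (δ / (4 * D)) * (N : ℝ) ^ (δ / 4) ≤ (N : ℝ) ^ (δ / 2) / 4 * (N : ℝ) ^ (δ / 4) :=
          mul_le_mul_of_nonneg_right h7 (by positivity)
      _ = (N : ℝ) ^ (δ / 2 + δ / 4) / 4 := by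
          rw [Real.rpow_add hX0]
          ring
      _ ≤ (N : ℝ) ^ (δ - κ) / 4 := by
          apply div_le_div_of_nonneg_right _ (by norm_num)
          exact Real.rpow_le_rpow_of_exponent_le hX1 (by linarith)

lemma harm (N : ℕ) : ∑ k ∈ Ioc 0 N, 1 / (k : ℝ) ≤ 1 + Real.log N := by
  have h1 := harmonic_le_one_add_log N
  have h2 : ((harmonic N : ℚ) : ℝ) = ∑ k ∈ Ioc 0 N, 1 / (k : ℝ) := by
    unfold harmonic
    push_cast
    have h3 : Ioc 0 N = Ico (0 + 1) (N + 1) := by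
      ext x
      simp only [mem_Ioc, mem_Ico]
      omega
    rw [h3, ← Finset.sum_Ico_add' (fun k : ℕ => 1 / (k : ℝ)) 0 N 1, Finset.range_eq_Ico]
    refine Finset.sum_congr rfl fun k _ => ?_
    push_cast
    rw [one_div]
  rw [← h2]
  exact h1

/-- `k` is good: the first multiples of `γ f(k) b²` are far from the integers -/
def GoodK (f : ℕ → ℕ) (γ : ℝ) (b z Δ k : ℕ) : Prop :=
  ∀ h : ℕ, 1 ≤ h → h ≤ Δ → Far (4 * Δ / z) (γ * f k * b ^ 2 * h)

open Classical in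
/-- **assembly** -/
theorem assembly {f : ℕ → ℕ} (hf : Aff f) {γ : ℝ} {b : ℕ} {a : ℤ} {z w Δ N : ℕ} {P : Finset ℕ}
    (hPp : ∀ p ∈ P, p.Prime) (hPw : ∀ p ∈ P, z < p ∧ p ≤ w)
    (hfp : ∀ p ∈ P, (f p : ℤ) = b * p + a) (hΔ : 1 ≤ Δ) (hz : Δ ≤ z) {η : ℝ}
    (hbad : ∀ p ∈ P, ∀ q ∈ P,
      (((Ioc 0 (N / (p * q))).filter (fun k => ¬ GoodK f γ b z Δ k)).card : ℝ) ≤ η * (N / (p * q))) :
    ‖∑ p ∈ P, ∑ q ∈ P, ∑ k ∈ Ioc 0 (N / (p * q)), e (γ * f (p * q * k))‖ ≤
      2 * (N * LL P / z + 2 * (N * LL P ^ 2 / z)) + η * (N * LL P ^ 2) +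
        (Nat.log 2 w + 1) * (2 * N / Real.sqrt Δ) * (1 + Real.log N) := by
  have hN0 : (0 : ℝ) ≤ N := Nat.cast_nonneg _
  have hz0 : (0 : ℝ) < z := by exact_mod_cast (by omega : 0 < z)
  have hΔ0 : (0 : ℝ) < Δ := by exact_mod_cast (by omega : 0 < Δ)
  have hLL : ∑ p ∈ P, ∑ q ∈ P, (N : ℝ) * (1 / p) * (1 / q) = N * LL P ^ 2 := by
    have h1 : ∀ p ∈ P, ∑ q ∈ P, (N : ℝ) * (1 / p) * (1 / q) = (1 / (p : ℝ)) * (N * LL P) := by
      intro p _
      rw [← Finset.mul_sum]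
      unfold LL
      ring
    rw [Finset.sum_congr rfl h1, ← Finset.sum_mul]
    unfold LL
    ring
  have hpz : ∀ p ∈ P, (1 : ℝ) / p ≤ 1 / z := by
    intro p hp
    apply one_div_le_one_div_of_le hz0
    exact_mod_cast (hPw p hp).1.le
  -- the difference of the two kinds of terms
  have hterm : ∀ p ∈ P, ∀ q ∈ P, ∀ k ∈ Ioc 0 (N / (p * q)),
      ‖e (γ * f (p * q * k)) - ph (γ * f k) b a p q‖ ≤
        2 * ((if p = q then (1 : ℝ) else 0) + (if p ∣ k then (1 : ℝ) else 0) +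
          (if q ∣ k then (1 : ℝ) else 0)) := by
    intro p hp q hq k hk
    have hb2 : ‖e (γ * f (p * q * k)) - ph (γ * f k) b a p q‖ ≤ 2 := by
      refine (norm_sub_le _ _).trans ?_
      unfold ph
      rw [norm_e, norm_e]
      norm_num
    by_cases h1 : p = q
    · rw [if_pos h1]
      have h2 : (0 : ℝ) ≤ (if p ∣ k then (1 : ℝ) else 0) := by split_ifs <;> norm_num
      have h3 : (0 : ℝ) ≤ (if q ∣ k then (1 : ℝ) else 0) := by split_ifs <;> norm_num
      linarith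
    · by_cases h2 : p ∣ k
      · rw [if_pos h2, if_neg h1]
        have h3 : (0 : ℝ) ≤ (if q ∣ k then (1 : ℝ) else 0) := by split_ifs <;> norm_num
        linarith
      · by_cases h3 : q ∣ k
        · rw [if_pos h3, if_neg h1, if_neg h2]
          linarith
        · rw [if_neg h1, if_neg h2, if_neg h3]
          have hpq : Nat.Coprime p q := (Nat.coprime_primes (hPp p hp) (hPp q hq)).2 h1
          have hpk : Nat.Coprime p k := ((hPp p hp).coprime_iff_not_dvd).2 h2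
          have hqk : Nat.Coprime q k := ((hPp q hq).coprime_iff_not_dvd).2 h3
          have h4 : f (p * q * k) = f p * f q * f k := by
            rw [hf.mul _ _ (Nat.Coprime.mul_left hpk hqk), hf.mul _ _ hpq]
          have h5 : (f p : ℝ) = b * p + a := by exact_mod_cast congrArg (fun x : ℤ => (x : ℝ)) (hfp p hp)
          have h6 : (f q : ℝ) = b * q + a := by exact_mod_cast congrArg (fun x : ℤ => (x : ℝ)) (hfp q hq)
          have h7 : e (γ * f (p * q * k)) = ph (γ * f k) b a p q := by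
            unfold ph
            congr 1
            rw [h4]
            push_cast
            rw [h5, h6]
            ring
          rw [h7, sub_self, norm_zero]
          norm_num
  obtain ⟨S1, hS1⟩ : ∃ S1, S1 = ∑ p ∈ P, ∑ q ∈ P, ∑ k ∈ Ioc 0 (N / (p * q)), e (γ * f (p * q * k)) := ⟨_, rfl⟩
  obtain ⟨S2, hS2⟩ : ∃ S2, S2 = ∑ p ∈ P, ∑ q ∈ P, ∑ k ∈ Ioc 0 (N / (p * q)), ph (γ * f k) b a p q := ⟨_, rfl⟩
  have hdiff : ‖S1 - S2‖ ≤ 2 * (N * LL P / z + 2 * (N * LL P ^ 2 / z)) := by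
    rw [hS1, hS2, ← Finset.sum_sub_distrib]
    have h1 : ∀ p ∈ P, ‖∑ q ∈ P, ∑ k ∈ Ioc 0 (N / (p * q)), e (γ * f (p * q * k)) -
        ∑ q ∈ P, ∑ k ∈ Ioc 0 (N / (p * q)), ph (γ * f k) b a p q‖ ≤
        ∑ q ∈ P, 2 * ((if p = q then (N : ℝ) * (1 / p) * (1 / z) else 0) +
          2 * ((N : ℝ) * (1 / p) * (1 / q) * (1 / z))) := by
      intro p hp
      rw [← Finset.sum_sub_distrib]
      refine (norm_sum_le _ _).trans (Finset.sum_le_sum fun q hq => ?_)
      rw [← Finset.sum_sub_distrib]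
      refine (norm_sum_le _ _).trans ((Finset.sum_le_sum (hterm p hp q hq)).trans ?_)
      rw [← Finset.mul_sum, Finset.sum_add_distrib, Finset.sum_add_distrib]
      apply mul_le_mul_of_nonneg_left _ (by norm_num)
      have hp0 : (0 : ℝ) < p := by exact_mod_cast (hPp p hp).pos
      have hq0 : (0 : ℝ) < q := by exact_mod_cast (hPp q hq).pos
      have hK : ((N / (p * q) : ℕ) : ℝ) ≤ (N : ℝ) * (1 / p) * (1 / q) := by
        have h2 : ((N / (p * q) : ℕ) : ℝ) ≤ (N : ℝ) / ((p * q : ℕ) : ℝ) := Nat.cast_div_le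
        refine h2.trans (le_of_eq ?_)
        push_cast
        field_simp
      have e1 : ∑ k ∈ Ioc 0 (N / (p * q)), (if p = q then (1 : ℝ) else 0) ≤
          if p = q then (N : ℝ) * (1 / p) * (1 / z) else 0 := by
        split_ifs with h2
        · rw [Finset.sum_const, Nat.card_Ioc, nsmul_eq_mul, mul_one, Nat.sub_zero]
          refine hK.trans ?_
          exact mul_le_mul_of_nonneg_left (hpz q hq) (by positivity)
        · simp
      have e2 : ∑ k ∈ Ioc 0 (N / (p * q)), (if p ∣ k then (1 : ℝ) else 0) ≤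
          (N : ℝ) * (1 / p) * (1 / q) * (1 / z) := by
        rw [← Finset.sum_filter, Finset.sum_const, nsmul_eq_mul, mul_one]
        refine (card_mult p _).trans ?_
        rw [div_eq_mul_one_div]
        exact mul_le_mul hK (hpz p hp) (by positivity) (by positivity)
      have e3 : ∑ k ∈ Ioc 0 (N / (p * q)), (if q ∣ k then (1 : ℝ) else 0) ≤
          (N : ℝ) * (1 / p) * (1 / q) * (1 / z) := by
        rw [← Finset.sum_filter, Finset.sum_const, nsmul_eq_mul, mul_one]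
        refine (card_mult q _).trans ?_
        rw [div_eq_mul_one_div]
        exact mul_le_mul hK (hpz q hq) (by positivity) (by positivity)
      linarith
    refine (norm_sum_le _ _).trans ((Finset.sum_le_sum h1).trans (le_of_eq ?_))
    have e1 : ∀ p ∈ P, ∑ q ∈ P, 2 * ((if p = q then (N : ℝ) * (1 / p) * (1 / z) else 0) +
          2 * ((N : ℝ) * (1 / p) * (1 / q) * (1 / z))) =
        2 * (1 / z) * (N * (1 / (p : ℝ))) + 4 * (1 / z) * ∑ q ∈ P, (N : ℝ) * (1 / p) * (1 / q) := by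
      intro p hp
      rw [← Finset.mul_sum, Finset.sum_add_distrib, Finset.sum_ite_eq P p, if_pos hp, ← Finset.mul_sum,
        ← Finset.sum_mul]
      ring
    rw [Finset.sum_congr rfl e1, Finset.sum_add_distrib, ← Finset.mul_sum, ← Finset.mul_sum,
      ← Finset.mul_sum, hLL]
    unfold LL
    ring
  -- the second kind, good and bad
  have hbadsum : ‖∑ p ∈ P, ∑ q ∈ P, ∑ k ∈ (Ioc 0 (N / (p * q))).filter (fun k => ¬ GoodK f γ b z Δ k),
      ph (γ * f k) b a p q‖ ≤ η * (N * LL P ^ 2) := by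
    rw [← hLL, Finset.mul_sum]
    refine (norm_sum_le _ _).trans (Finset.sum_le_sum fun p hp => ?_)
    rw [Finset.mul_sum]
    refine (norm_sum_le _ _).trans (Finset.sum_le_sum fun q hq => ?_)
    refine (norm_sum_le _ _).trans ?_
    have h1 : ∀ k, ‖ph (γ * f k) b a p q‖ = 1 := fun k => by
      unfold ph
      exact norm_e _
    simp only [h1]
    rw [Finset.sum_const, nsmul_eq_mul, mul_one]
    refine (hbad p hp q hq).trans (le_of_eq ?_)
    have hp0 : (0 : ℝ) < p := by exact_mod_cast (hPp p hp).pos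
    have hq0 : (0 : ℝ) < q := by exact_mod_cast (hPp q hq).pos
    field_simp
  have hgoodsum : ‖∑ p ∈ P, ∑ q ∈ P, ∑ k ∈ (Ioc 0 (N / (p * q))).filter (fun k => GoodK f γ b z Δ k),
      ph (γ * f k) b a p q‖ ≤ (Nat.log 2 w + 1) * (2 * N / Real.sqrt Δ) * (1 + Real.log N) := by
    have h1 : ∀ p ∈ P, ∀ q ∈ P, ∑ k ∈ (Ioc 0 (N / (p * q))).filter (fun k => GoodK f γ b z Δ k),
        ph (γ * f k) b a p q = ∑ k ∈ (Ioc 0 N).filter (fun k => GoodK f γ b z Δ k),
          uu (γ * f k) b a (N / k) p q := by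
      intro p hp q hq
      have hpq : 0 < p * q := Nat.mul_pos (hPp p hp).pos (hPp q hq).pos
      have h2 : (Ioc 0 (N / (p * q))).filter (fun k => GoodK f γ b z Δ k) =
          ((Ioc 0 N).filter (fun k => GoodK f γ b z Δ k)).filter (fun k => p * q ≤ N / k) := by
        ext k
        simp only [mem_filter, mem_Ioc]
        constructor
        · rintro ⟨⟨h3, h4⟩, h5⟩
          have h6 := (Nat.le_div_iff_mul_le hpq).1 h4
          refine ⟨⟨⟨h3, ?_⟩, h5⟩, ?_⟩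
          · exact le_trans (Nat.le_mul_of_pos_right k hpq) h6
          · rw [Nat.le_div_iff_mul_le h3, mul_comm]
            exact h6
        · rintro ⟨⟨⟨h3, h4⟩, h5⟩, h6⟩
          refine ⟨⟨h3, ?_⟩, h5⟩
          rw [Nat.le_div_iff_mul_le hpq, mul_comm]
          exact (Nat.le_div_iff_mul_le h3).1 h6
      rw [h2, Finset.sum_filter]
      rfl
    have h2 : ∑ p ∈ P, ∑ q ∈ P, ∑ k ∈ (Ioc 0 (N / (p * q))).filter (fun k => GoodK f γ b z Δ k),
        ph (γ * f k) b a p q = ∑ k ∈ (Ioc 0 N).filter (fun k => GoodK f γ b z Δ k),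
          ∑ q ∈ P, ∑ p ∈ P, uu (γ * f k) b a (N / k) p q := by
      rw [Finset.sum_congr rfl fun p hp => Finset.sum_congr rfl (h1 p hp)]
      have e1 : ∀ p ∈ P, ∑ q ∈ P, ∑ k ∈ (Ioc 0 N).filter (fun k => GoodK f γ b z Δ k),
          uu (γ * f k) b a (N / k) p q = ∑ k ∈ (Ioc 0 N).filter (fun k => GoodK f γ b z Δ k),
          ∑ q ∈ P, uu (γ * f k) b a (N / k) p q := fun p _ => Finset.sum_comm
      rw [Finset.sum_congr rfl e1, Finset.sum_comm]
      exact Finset.sum_congr rfl fun k _ => Finset.sum_comm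
    rw [h2]
    have h3 : ∀ k ∈ (Ioc 0 N).filter (fun k => GoodK f γ b z Δ k),
        ‖∑ q ∈ P, ∑ p ∈ P, uu (γ * f k) b a (N / k) p q‖ ≤
          (Nat.log 2 w + 1) * (2 * N / Real.sqrt Δ) * (1 / (k : ℝ)) := by
      intro k hk
      rw [mem_filter, mem_Ioc] at hk
      have hk0 : (0 : ℝ) < k := by exact_mod_cast hk.1.1
      have h4 := allpairs (β := γ * f k) (b := b) (a := a) (T := N / k) (z := z) (w := w) (Δ := Δ)
        hΔ hz hk.2 (P := P) hPw
      refine h4.trans ?_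
      have h5 : ((N / k : ℕ) : ℝ) ≤ N / k := Nat.cast_div_le
      rw [mul_assoc]
      apply mul_le_mul_of_nonneg_left _ (by positivity)
      calc 2 * ((N / k : ℕ) : ℝ) / Real.sqrt Δ ≤ 2 * (N / k) / Real.sqrt Δ := by gcongr
        _ = 2 * N / Real.sqrt Δ * (1 / (k : ℝ)) := by ring
    refine (norm_sum_le _ _).trans ((Finset.sum_le_sum h3).trans ?_)
    rw [← Finset.mul_sum]
    apply mul_le_mul_of_nonneg_left _ (by positivity)
    refine le_trans ?_ (harm N)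
    exact Finset.sum_le_sum_of_subset_of_nonneg (Finset.filter_subset _ _)
      fun _ _ _ => by positivity
  have hsplit : S2 = (∑ p ∈ P, ∑ q ∈ P, ∑ k ∈ (Ioc 0 (N / (p * q))).filter
      (fun k => GoodK f γ b z Δ k), ph (γ * f k) b a p q) +
      ∑ p ∈ P, ∑ q ∈ P, ∑ k ∈ (Ioc 0 (N / (p * q))).filter (fun k => ¬ GoodK f γ b z Δ k),
        ph (γ * f k) b a p q := by
    rw [hS2, ← Finset.sum_add_distrib]
    refine Finset.sum_congr rfl fun p _ => ?_
    rw [← Finset.sum_add_distrib]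
    refine Finset.sum_congr rfl fun q _ => ?_
    rw [Finset.sum_filter_add_sum_filter_not]
  have h1 := norm_le_norm_sub_add S1 S2
  have h2 : ‖S2‖ ≤ (Nat.log 2 w + 1) * (2 * N / Real.sqrt Δ) * (1 + Real.log N) +
      η * (N * LL P ^ 2) := by
    rw [hsplit]
    exact (norm_add_le _ _).trans (add_le_add hgoodsum hbadsum)
  rw [← hS1]
  linarith

end Pool.Agent.J4.H74.MulExp
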