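import Pool.Agent.H469R2.NK.KL

/-! Exponential sums over the values of multiplicative functions, part 1: the bilinear sums
`∑ e (β (b p + a) (b q + a))` over pairs `p, q` with `p q ≤ T`, if the first multiples of `β b²` are
far from the integers. -/

set_option autoImplicit false

namespace Pool.Agent.J4.H74.MulExp

open Finset
open Pool.Agent.H469R2.NK (e norm_e e_add conj_e e_zero cc cc_mul norm_cc_le sin_pos_of)

/-- the distance of `x` to all the integers is larger than `t` -/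
def Far (t x : ℝ) : Prop := ∀ k : ℤ, t < |x - k|

lemma e_int (k : ℤ) : e k = 1 := by
  unfold Pool.Agent.H469R2.NK.e
  rw [Complex.exp_eq_one_iff]
  refine ⟨k, ?_⟩
  push_cast
  ring

lemma e_fract (x : ℝ) : e (Int.fract x) = e x := by
  have h : x = Int.fract x + ⌊x⌋ := by
    have := Int.fract_add_floor x
    linarith
  conv_rhs => rw [h, e_add, e_int, mul_one]

lemma geo {t β : ℝ} (ht : 0 < t) (h : Far t β) (α : ℝ) (L : ℕ) :
    ‖∑ i ∈ range L, e (α + β * i)‖ ≤ 1 / t := by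
  obtain ⟨δ, hδ⟩ : ∃ δ, δ = Int.fract β := ⟨_, rfl⟩
  have hfl : Int.fract β = β - ⌊β⌋ := rfl
  have h0 : t ≤ δ := by
    have h1 := h ⌊β⌋
    rw [abs_of_nonneg (by have := Int.floor_le β; linarith)] at h1
    rw [hδ, hfl]
    exact h1.le
  have h1 : δ ≤ 1 - t := by
    have h2 := h (⌊β⌋ + 1)
    have h3 := Int.lt_floor_add_one β
    push_cast at h2
    rw [abs_of_nonpos (by linarith)] at h2
    rw [hδ, hfl]
    linarith
  have hs : Real.sin (Real.pi * δ) ≠ 0 := (sin_pos_of (ht.trans_le h0) (by linarith)).ne'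
  have hcc := cc_mul hs
  have eδ : e δ = e β := by rw [hδ]; exact e_fract β
  have hgeo : (1 - e β) * ∑ i ∈ range L, e (α + β * i) = e α - e (α + β * L) := by
    induction L with
    | zero => simp
    | succ L ih =>
      rw [sum_range_succ, mul_add, ih]
      have e2 : e (α + β * ((L + 1 : ℕ) : ℝ)) = e β * e (α + β * L) := by
        rw [← e_add]
        congr 1
        push_cast
        ring
      rw [e2]
      ring
  have h2 : ∑ i ∈ range L, e (α + β * i) = cc δ * (e α - e (α + β * L)) := by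
    calc ∑ i ∈ range L, e (α + β * i) = (cc δ * (1 - e δ)) * ∑ i ∈ range L, e (α + β * i) := by
          rw [hcc, one_mul]
      _ = cc δ * ((1 - e β) * ∑ i ∈ range L, e (α + β * i)) := by rw [eδ, mul_assoc]
      _ = _ := by rw [hgeo]
  rw [h2, norm_mul]
  have h3 := norm_cc_le ht h0 h1
  have h4 : ‖e α - e (α + β * L)‖ ≤ 2 := by
    refine (norm_sub_le _ _).trans ?_
    rw [norm_e, norm_e]
    norm_num
  have ht2 : t ≤ 1 / 2 := by linarith
  calc ‖cc δ‖ * ‖e α - e (α + β * L)‖ ≤ (1 / 2 + 1 / (4 * t)) * 2 :=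
        mul_le_mul h3 h4 (norm_nonneg _) (by positivity)
    _ ≤ 1 / t := by
        have h5 : (1 / 2 + 1 / (4 * t)) * 2 = 1 + 1 / (2 * t) := by
          field_simp
          ring
        have h6 : (1 : ℝ) ≤ 1 / (2 * t) := by
          rw [le_div_iff₀ (by positivity)]
          linarith
        have h7 : 1 / t = 1 / (2 * t) + 1 / (2 * t) := by
          field_simp
          ring
        rw [h5, h7]
        linarith

lemma geo_Ico {t β : ℝ} (ht : 0 < t) (h : Far t β) (α : ℝ) (A B : ℕ) :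
    ‖∑ n ∈ Ico A B, e (α + β * n)‖ ≤ 1 / t := by
  rw [Finset.sum_Ico_eq_sum_range]
  have e1 : ∀ i : ℕ, e (α + β * ((A + i : ℕ) : ℝ)) = e ((α + β * A) + β * i) := by
    intro i
    congr 1
    push_cast
    ring
  simp only [e1]
  exact geo ht h _ _

/-- spaced sets have few elements -/
lemma card_spaced {R : Finset ℕ} {X Δ : ℕ} (hΔ : 1 ≤ Δ) (hX : ∀ r ∈ R, r ≤ X)
    (h : ∀ r ∈ R, ∀ s ∈ R, r < s → Δ < s - r) : R.card ≤ X / Δ + 1 := by
  have h1 : R.card ≤ (range (X / Δ + 1)).card := by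
    apply Finset.card_le_card_of_injOn (fun r => r / Δ)
    · intro r hr
      rw [Finset.mem_coe, Finset.mem_range]
      have := Nat.div_le_div_right (c := Δ) (hX r hr)
      show r / Δ < X / Δ + 1
      omega
    · have key : ∀ r ∈ R, ∀ s ∈ R, r < s → r / Δ ≠ s / Δ := by
        intro r hr s hs hrs heq
        have h2 := h r hr s hs hrs
        have h3 := Nat.div_add_mod r Δ
        have h4 := Nat.div_add_mod s Δ
        have h5 := Nat.mod_lt s (show 0 < Δ by omega)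
        rw [heq] at h3
        omega
      intro r hr s hs hrs
      rcases lt_trichotomy r s with h2 | h2 | h2
      · exact absurd hrs (key r hr s hs h2)
      · exact h2
      · exact absurd hrs.symm (key s hs r hr h2)
  rwa [card_range] at h1

/-- the phases -/
noncomputable def ph (β : ℝ) (b : ℕ) (a : ℤ) (p q : ℕ) : ℂ :=
  e (β * ((b * p + a) * (b * q + a)))

open Classical in
/-- the phases with the condition `p q ≤ T` -/
noncomputable def uu (β : ℝ) (b : ℕ) (a : ℤ) (T p q : ℕ) : ℂ :=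
  if p * q ≤ T then ph β b a p q else 0

lemma norm_uu (β : ℝ) (b : ℕ) (a : ℤ) (T p q : ℕ) : ‖uu β b a T p q‖ ≤ 1 := by
  unfold uu ph
  split_ifs
  · rw [norm_e]
  · simp

/-- a pair of the square -/
lemma pair {β : ℝ} {b : ℕ} {a : ℤ} {T Y p p' : ℕ} (hp : 1 ≤ p) :
    ∃ B : ℕ, B ≤ 2 * Y ∧ ∑ n ∈ Ico Y (2 * Y), uu β b a T p n * (starRingEnd ℂ) (uu β b a T p' n) =
      ∑ n ∈ Ico Y B, e (β * b * ((p : ℝ) - p') * a + β * b ^ 2 * ((p : ℝ) - p') * n) := by
  classical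
  refine ⟨min (2 * Y) (T / (max p p') + 1), min_le_left _ _, ?_⟩
  have hm : 0 < max p p' := lt_of_lt_of_le (by omega) (le_max_left p p')
  have e1 : Ico Y (min (2 * Y) (T / (max p p') + 1)) =
      (Ico Y (2 * Y)).filter (fun n => p * n ≤ T ∧ p' * n ≤ T) := by
    ext n
    simp only [mem_Ico, mem_filter, lt_min_iff, Nat.lt_succ_iff]
    have h1 : n ≤ T / max p p' ↔ (p * n ≤ T ∧ p' * n ≤ T) := by
      rw [Nat.le_div_iff_mul_le hm]
      constructor
      · intro h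
        exact ⟨le_trans (by rw [mul_comm]; exact Nat.mul_le_mul le_rfl (le_max_left _ _)) h,
          le_trans (by rw [mul_comm]; exact Nat.mul_le_mul le_rfl (le_max_right _ _)) h⟩
      · rintro ⟨h2, h3⟩
        rcases max_choice p p' with h4 | h4 <;> rw [h4, mul_comm] <;> assumption
    rw [← h1]
    tauto
  rw [e1, Finset.sum_filter]
  refine Finset.sum_congr rfl fun n _ => ?_
  unfold uu ph
  by_cases h1 : p * n ≤ T
  · by_cases h2 : p' * n ≤ T
    · rw [if_pos h1, if_pos h2, if_pos ⟨h1, h2⟩, conj_e, ← e_add]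
      congr 1
      ring
    · rw [if_neg h2, if_neg (fun h : p * n ≤ T ∧ p' * n ≤ T => h2 h.2), map_zero, mul_zero]
  · rw [if_neg h1, if_neg (fun h : p * n ≤ T ∧ p' * n ≤ T => h1 h.1), zero_mul]

/-- **the bilinear sums** -/
theorem bilin {β t : ℝ} {b : ℕ} {a : ℤ} {T Y X Δ : ℕ} (ht : 0 < t) (hΔ : 1 ≤ Δ)
    (hfar : ∀ h : ℕ, 1 ≤ h → h ≤ Δ → Far (2 * t) (β * b ^ 2 * h))
    {A B : Finset ℕ} (hA : A ⊆ Ico Y (2 * Y)) (hB : ∀ p ∈ B, 1 ≤ p ∧ p ≤ X) :
    ‖∑ q ∈ A, ∑ p ∈ B, uu β b a T p q‖ ^ 2 ≤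
      Y * ((X : ℝ) * ((X : ℝ) * (1 / t) + ((X / Δ : ℕ) + 1) * Y)) := by
  classical
  obtain ⟨g, hg⟩ : ∃ g : ℕ → ℂ, g = fun n => ∑ p ∈ B, uu β b a T p n := ⟨_, rfl⟩
  have hBX : (B.card : ℝ) ≤ X := by
    have h1 : B ⊆ Icc 1 X := fun p hp => mem_Icc.2 (hB p hp)
    have h2 := Finset.card_le_card h1
    rw [Nat.card_Icc] at h2
    exact_mod_cast (by omega : B.card ≤ X)
  -- Cauchy-Schwarz
  have h1 : ‖∑ q ∈ A, g q‖ ^ 2 ≤ Y * ∑ n ∈ Ico Y (2 * Y), ‖g n‖ ^ 2 := by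
    have h2 : ‖∑ q ∈ A, g q‖ ≤ ∑ q ∈ A, ‖g q‖ := norm_sum_le _ _
    have h3 : (∑ q ∈ A, ‖g q‖) ^ 2 ≤ (A.card : ℝ) * ∑ q ∈ A, ‖g q‖ ^ 2 := sq_sum_le_card_mul_sum_sq
    have h4 : (A.card : ℝ) ≤ Y := by
      have := Finset.card_le_card hA
      rw [Nat.card_Ico] at this
      exact_mod_cast (by omega : A.card ≤ Y)
    have h5 : ∑ q ∈ A, ‖g q‖ ^ 2 ≤ ∑ n ∈ Ico Y (2 * Y), ‖g n‖ ^ 2 :=
      Finset.sum_le_sum_of_subset_of_nonneg hA fun _ _ _ => by positivity
    calc ‖∑ q ∈ A, g q‖ ^ 2 ≤ (∑ q ∈ A, ‖g q‖) ^ 2 := pow_le_pow_left₀ (norm_nonneg _) h2 2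
      _ ≤ (A.card : ℝ) * ∑ q ∈ A, ‖g q‖ ^ 2 := h3
      _ ≤ Y * ∑ n ∈ Ico Y (2 * Y), ‖g n‖ ^ 2 := mul_le_mul h4 h5
          (Finset.sum_nonneg fun _ _ => by positivity) (Nat.cast_nonneg _)
  -- opening the square
  have h2 : ((∑ n ∈ Ico Y (2 * Y), ‖g n‖ ^ 2 : ℝ) : ℂ) = ∑ p ∈ B, ∑ p' ∈ B,
      ∑ n ∈ Ico Y (2 * Y), uu β b a T p n * (starRingEnd ℂ) (uu β b a T p' n) := by
    have h3 : ∀ n, ((‖g n‖ ^ 2 : ℝ) : ℂ) = ∑ p ∈ B, ∑ p' ∈ B,
        uu β b a T p n * (starRingEnd ℂ) (uu β b a T p' n) := by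
      intro n
      rw [← Complex.normSq_eq_norm_sq, ← Complex.mul_conj, hg]
      simp only [map_sum]
      rw [Finset.sum_mul_sum]
    rw [Complex.ofReal_sum]
    simp only [h3]
    rw [Finset.sum_comm]
    refine Finset.sum_congr rfl fun p _ => ?_
    rw [Finset.sum_comm]
  have h3 : ∑ n ∈ Ico Y (2 * Y), ‖g n‖ ^ 2 ≤ ∑ p' ∈ B, ∑ p ∈ B,
      (if Far t (β * b ^ 2 * ((p : ℝ) - p')) then 1 / t else (Y : ℝ)) := by
    have h4 : ∑ n ∈ Ico Y (2 * Y), ‖g n‖ ^ 2 = ‖((∑ n ∈ Ico Y (2 * Y), ‖g n‖ ^ 2 : ℝ) : ℂ)‖ := by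
      rw [Complex.norm_real, Real.norm_eq_abs, abs_of_nonneg]
      exact Finset.sum_nonneg fun _ _ => by positivity
    rw [h4, h2, Finset.sum_comm (s := B) (t := B)]
    refine (norm_sum_le _ _).trans (Finset.sum_le_sum fun p' hp' => ?_)
    refine (norm_sum_le _ _).trans (Finset.sum_le_sum fun p hp => ?_)
    obtain ⟨C, hC, h5⟩ := pair (β := β) (b := b) (a := a) (T := T) (Y := Y) (p := p) (p' := p')
      (hB p hp).1
    rw [h5]
    split_ifs with h6
    · exact geo_Ico ht h6 _ _ _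
    · refine (norm_sum_le _ _).trans ?_
      simp only [norm_e]
      rw [Finset.sum_const, Nat.card_Ico, nsmul_eq_mul, mul_one]
      exact_mod_cast (by omega : C - Y ≤ Y)
  have h4 : ∀ p' ∈ B, ∑ p ∈ B, (if Far t (β * b ^ 2 * ((p : ℝ) - p')) then 1 / t else (Y : ℝ)) ≤
      (X : ℝ) * (1 / t) + ((X / Δ : ℕ) + 1) * Y := by
    intro p' hp'
    rw [Finset.sum_ite, Finset.sum_const, Finset.sum_const, nsmul_eq_mul, nsmul_eq_mul]
    have h5 : ((B.filter (fun p : ℕ => Far t (β * b ^ 2 * ((p : ℝ) - p')))).card : ℝ) ≤ X :=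
      le_trans (by exact_mod_cast Finset.card_filter_le _ _) hBX
    have h6 : (B.filter (fun p : ℕ => ¬ Far t (β * b ^ 2 * ((p : ℝ) - p')))).card ≤ X / Δ + 1 := by
      apply card_spaced hΔ
      · intro r hr
        exact (hB r (Finset.mem_filter.1 hr).1).2
      · intro r hr s hs hrs
        by_contra hcon
        push Not at hcon
        have hr' := (Finset.mem_filter.1 hr).2
        have hs' := (Finset.mem_filter.1 hs).2
        unfold Far at hr' hs'
        push Not at hr' hs'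
        obtain ⟨k, hk⟩ := hr'
        obtain ⟨l, hl⟩ := hs'
        have h7 := hfar (s - r) (by omega) hcon (l - k)
        have h8 : β * b ^ 2 * ((s - r : ℕ) : ℝ) - ((l - k : ℤ) : ℝ) =
            (β * b ^ 2 * ((s : ℝ) - p') - l) - (β * b ^ 2 * ((r : ℝ) - p') - k) := by
          rw [Nat.cast_sub hrs.le]
          push_cast
          ring
        rw [h8] at h7
        have h9 := abs_sub (β * b ^ 2 * ((s : ℝ) - p') - l) (β * b ^ 2 * ((r : ℝ) - p') - k)
        linarith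
    have h7 : ((B.filter (fun p : ℕ => ¬ Far t (β * b ^ 2 * ((p : ℝ) - p')))).card : ℝ) ≤
        ((X / Δ : ℕ) : ℝ) + 1 := by exact_mod_cast h6
    exact add_le_add (mul_le_mul_of_nonneg_right h5 (by positivity))
      (mul_le_mul_of_nonneg_right h7 (Nat.cast_nonneg _))
  have h5 : ∑ n ∈ Ico Y (2 * Y), ‖g n‖ ^ 2 ≤
      (X : ℝ) * ((X : ℝ) * (1 / t) + ((X / Δ : ℕ) + 1) * Y) := by
    refine h3.trans ((Finset.sum_le_sum h4).trans ?_)
    rw [Finset.sum_const, nsmul_eq_mul]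
    exact mul_le_mul_of_nonneg_right hBX (by positivity)
  have h6 : ∑ q ∈ A, ∑ p ∈ B, uu β b a T p q = ∑ q ∈ A, g q := by rw [hg]
  rw [h6]
  exact h1.trans (mul_le_mul_of_nonneg_left h5 (Nat.cast_nonneg _))

/-- **all pairs** -/
theorem allpairs {β : ℝ} {b : ℕ} {a : ℤ} {T z w Δ : ℕ} (hΔ : 1 ≤ Δ) (hz : Δ ≤ z)
    (hfar : ∀ h : ℕ, 1 ≤ h → h ≤ Δ → Far (4 * Δ / z) (β * b ^ 2 * h))
    {P : Finset ℕ} (hP : ∀ p ∈ P, z < p ∧ p ≤ w) :
    ‖∑ q ∈ P, ∑ p ∈ P, uu β b a T p q‖ ≤ (Nat.log 2 w + 1) * (2 * T / Real.sqrt Δ) := by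
  classical
  have hz0 : (0 : ℝ) < z := by exact_mod_cast (by omega : 0 < z)
  have hΔ0 : (0 : ℝ) < Δ := by exact_mod_cast (by omega : 0 < Δ)
  have hT0 : (0 : ℝ) ≤ T := Nat.cast_nonneg _
  have h1 : ∑ q ∈ P, ∑ p ∈ P, uu β b a T p q = ∑ j ∈ range (Nat.log 2 w + 1),
      ∑ q ∈ P.filter (fun q => Nat.log 2 q = j), ∑ p ∈ P, uu β b a T p q := by
    rw [Finset.sum_fiberwise_of_maps_to]
    intro q hq
    rw [mem_range]
    have := Nat.log_mono_right (b := 2) (hP q hq).2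
    omega
  rw [h1]
  refine (norm_sum_le _ _).trans ?_
  have h2 : ∀ j ∈ range (Nat.log 2 w + 1),
      ‖∑ q ∈ P.filter (fun q => Nat.log 2 q = j), ∑ p ∈ P, uu β b a T p q‖ ≤
        2 * T / Real.sqrt Δ := by
    intro j _
    obtain ⟨A, hA⟩ : ∃ A, A = P.filter (fun q => Nat.log 2 q = j) := ⟨_, rfl⟩
    rw [← hA]
    have hAq : ∀ q ∈ A, 2 ^ j ≤ q ∧ q < 2 * 2 ^ j := by
      intro q hq
      rw [hA, Finset.mem_filter] at hq
      have hq0 : q ≠ 0 := by
        have := (hP q hq.1).1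
        omega
      constructor
      · rw [← hq.2]
        exact Nat.pow_log_le_self 2 hq0
      · rw [← hq.2, ← pow_succ']
        exact Nat.lt_pow_succ_log_self (by norm_num) q
    have hrhs : 0 ≤ 2 * (T : ℝ) / Real.sqrt Δ := by positivity
    rcases A.eq_empty_or_nonempty with hAe | ⟨q₀, hq₀⟩
    · rw [hAe, Finset.sum_empty, norm_zero]
      exact hrhs
    obtain ⟨Y, hY⟩ : ∃ Y, Y = 2 ^ j := ⟨_, rfl⟩
    obtain ⟨X, hX⟩ : ∃ X, X = T / Y := ⟨_, rfl⟩
    have hYpos : 0 < Y := by rw [hY]; positivity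
    have hq1 := hAq q₀ hq₀
    have hzY : z ≤ 2 * Y := by
      rw [hA, Finset.mem_filter] at hq₀
      have := (hP q₀ hq₀.1).1
      omega
    obtain ⟨B, hBd⟩ : ∃ B, B = P.filter (fun p => p ≤ X) := ⟨_, rfl⟩
    have h3 : ∑ q ∈ A, ∑ p ∈ P, uu β b a T p q = ∑ q ∈ A, ∑ p ∈ B, uu β b a T p q := by
      refine Finset.sum_congr rfl fun q hq => ?_
      rw [hBd, Finset.sum_filter]
      refine Finset.sum_congr rfl fun p _ => ?_
      split_ifs with h4
      · rfl
      · unfold uu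
        rw [if_neg]
        intro h5
        apply h4
        rw [hX, Nat.le_div_iff_mul_le hYpos]
        refine le_trans (Nat.mul_le_mul le_rfl ?_) h5
        rw [hY]
        exact (hAq q hq).1
    rw [h3]
    rcases B.eq_empty_or_nonempty with hBe | ⟨p₀, hp₀⟩
    · rw [hBe]
      simp only [Finset.sum_empty, Finset.sum_const_zero, norm_zero]
      exact hrhs
    have hzX : z ≤ X := by
      rw [hBd, Finset.mem_filter] at hp₀
      have := (hP p₀ hp₀.1).1
      omega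
    have h4 := bilin (β := β) (b := b) (a := a) (T := T) (Y := Y) (X := X) (Δ := Δ)
      (t := 2 * Δ / z) (by positivity) hΔ (by
        intro h hh1 hh2
        have h5 := hfar h hh1 hh2
        have e1 : 2 * (2 * (Δ : ℝ) / z) = 4 * Δ / z := by ring
        rw [e1]
        exact h5) (A := A) (B := B) (by
        intro q hq
        rw [mem_Ico, hY]
        exact hAq q hq) (by
        intro p hp
        rw [hBd, Finset.mem_filter] at hp
        exact ⟨by have := (hP p hp.1).1; omega, hp.2⟩)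
    have hXY : (X : ℝ) * Y ≤ T := by
      rw [hX]
      exact_mod_cast Nat.div_mul_le_self T Y
    have hYr : (0 : ℝ) < Y := by exact_mod_cast hYpos
    have hX0 : (0 : ℝ) ≤ X := Nat.cast_nonneg _
    have hzX' : (z : ℝ) ≤ X := by exact_mod_cast hzX
    have hzY' : (z : ℝ) ≤ 2 * Y := by exact_mod_cast hzY
    have hzΔ : (Δ : ℝ) ≤ z := by exact_mod_cast hz
    have hdiv : ((X / Δ : ℕ) : ℝ) ≤ X / Δ := Nat.cast_div_le
    have h5 : (Y : ℝ) * ((X : ℝ) * ((X : ℝ) * (1 / (2 * Δ / z)) + ((X / Δ : ℕ) + 1) * Y)) ≤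
        (2 * T / Real.sqrt Δ) ^ 2 := by
      have e1 : (2 * (T : ℝ) / Real.sqrt Δ) ^ 2 = 4 * T ^ 2 / Δ := by
        rw [div_pow, Real.sq_sqrt hΔ0.le]
        ring
      rw [e1]
      have h6 : 1 / (2 * (Δ : ℝ) / z) ≤ Y / Δ := by
        rw [one_div_div, div_le_div_iff₀ (by positivity) hΔ0]
        nlinarith
      have h7 : ((X / Δ : ℕ) : ℝ) + 1 ≤ 2 * (X / Δ) := by
        have : (1 : ℝ) ≤ X / Δ := by
          rw [le_div_iff₀ hΔ0]
          linarith
        linarith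
      calc (Y : ℝ) * ((X : ℝ) * ((X : ℝ) * (1 / (2 * Δ / z)) + ((X / Δ : ℕ) + 1) * Y))
          ≤ (Y : ℝ) * ((X : ℝ) * ((X : ℝ) * (Y / Δ) + (2 * (X / Δ)) * Y)) := by
            apply mul_le_mul_of_nonneg_left _ hYr.le
            apply mul_le_mul_of_nonneg_left _ hX0
            exact add_le_add (mul_le_mul_of_nonneg_left h6 hX0)
              (mul_le_mul_of_nonneg_right h7 hYr.le)
        _ = 3 * ((X : ℝ) * Y) ^ 2 / Δ := by ring
        _ ≤ 3 * (T : ℝ) ^ 2 / Δ := by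
            apply div_le_div_of_nonneg_right _ hΔ0.le
            have := pow_le_pow_left₀ (by positivity) hXY 2
            linarith
        _ ≤ 4 * (T : ℝ) ^ 2 / Δ := by
            apply div_le_div_of_nonneg_right _ hΔ0.le
            nlinarith
    exact le_of_sq_le_sq (h4.trans h5) hrhs
  refine (Finset.sum_le_sum h2).trans ?_
  rw [Finset.sum_const, card_range, nsmul_eq_mul]
  push_cast
  exact le_rfl

end Pool.Agent.J4.H74.MulExp
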