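import Pool.Agent.J4.H74.MulExp.Asm
import Pool.Agent.Erdos456.Mertens

/-! Exponential sums over the values of multiplicative functions, part 5: the theorem. For a positive
multiplicative function `f` of polynomial growth with `f(p) = b p + a` for the large primes and for every
irrational algebraic `γ` the sums `∑_{m ≤ N} e(γ f(m))` are `o(N)`. -/

set_option autoImplicit false

namespace Pool.Agent.J4.H74.MulExp

open Finset Filter
open Pool.Agent.H469R2.NK (e norm_e e_add)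

/-- the primes in `(z, w]` -/
def PZ (z w : ℕ) : Finset ℕ := (Ioc z w).filter Nat.Prime

lemma mem_PZ {z w p : ℕ} : p ∈ PZ z w ↔ (z < p ∧ p ≤ w) ∧ p.Prime := by
  unfold PZ
  rw [mem_filter, mem_Ioc]

lemma LL_PZ {C : ℝ} (hC : ∀ N : ℕ, 3 ≤ N →
    |∑ p ∈ (Finset.Icc 1 N).filter Nat.Prime, (1 : ℝ) / p - Real.log (Real.log N)| ≤ C)
    {z w : ℕ} (hz : 3 ≤ z) (hzw : z ≤ w) :
    Real.log (Real.log w / Real.log z) - 2 * C ≤ LL (PZ z w) := by
  have h1 := abs_le.1 (hC z hz)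
  have h2 := abs_le.1 (hC w (hz.trans hzw))
  have h3 : (Icc 1 w).filter Nat.Prime = (Icc 1 z).filter Nat.Prime ∪ PZ z w := by
    ext p
    simp only [mem_filter, mem_Icc, mem_union, mem_PZ]
    constructor
    · rintro ⟨⟨h4, h5⟩, h6⟩
      rcases le_or_gt p z with h7 | h7
      · exact Or.inl ⟨⟨h4, h7⟩, h6⟩
      · exact Or.inr ⟨⟨h7, h5⟩, h6⟩
    · rintro (⟨⟨h4, h5⟩, h6⟩ | ⟨⟨h4, h5⟩, h6⟩)
      · exact ⟨⟨h4, h5.trans hzw⟩, h6⟩
      · exact ⟨⟨by omega, h5⟩, h6⟩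
  have h4 : Disjoint ((Icc 1 z).filter Nat.Prime) (PZ z w) := by
    rw [Finset.disjoint_left]
    intro p hp hp'
    rw [mem_filter, mem_Icc] at hp
    rw [mem_PZ] at hp'
    omega
  rw [h3, Finset.sum_union h4] at h2
  have hlz : 0 < Real.log z := Real.log_pos (by exact_mod_cast (by omega : 1 < z))
  have hlw : 0 < Real.log w := Real.log_pos (by exact_mod_cast (by omega : 1 < w))
  rw [Real.log_div hlw.ne' hlz.ne']
  unfold LL
  linarith [h1.1, h1.2, h2.1, h2.2]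

/-- **the exponential sums are small** -/
theorem small {f : ℕ → ℕ} (hf : Aff f) {γ : ℝ} (hγ : Irrational γ) (ha : IsAlgebraic ℤ γ) {ε : ℝ}
    (hε : 0 < ε) : ∀ᶠ N : ℕ in atTop, ‖∑ m ∈ Ioc 0 N, e (γ * f m)‖ ≤ ε * N := by
  classical
  obtain ⟨P₀, b, a, hb, hprime⟩ := hf.prime
  obtain ⟨Cg, Dg, hgrow⟩ := hf.growth
  obtain ⟨D, hD⟩ : ∃ D, D = Dg + 1 := ⟨_, rfl⟩
  have hD1 : 1 ≤ D := by omega
  have hgrow' : ∀ m : ℕ, 1 ≤ m → f m ≤ Cg * m ^ D := by
    intro m hm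
    refine (hgrow m hm).trans (Nat.mul_le_mul le_rfl ?_)
    rw [hD]
    exact Nat.pow_le_pow_right hm (Nat.le_succ _)
  -- the frequency
  have hb0 : b ≠ 0 := by omega
  obtain ⟨θ, hθ⟩ : ∃ θ : ℝ, θ = γ * ((b ^ 2 : ℕ) : ℝ) := ⟨_, rfl⟩
  have hθi : Irrational θ := by
    rw [hθ]
    exact hγ.mul_natCast (pow_ne_zero 2 hb0)
  have hθa : IsAlgebraic ℤ θ := by
    rw [hθ]
    exact ha.mul (isAlgebraic_natCast _)
  obtain ⟨τ, c, hτ, hc, hL⟩ := liou hθi hθa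
  obtain ⟨C, hC⟩ := Pool.Agent.Erdos456.Mert.mertens_inv
  -- parameters
  obtain ⟨L0, hL0⟩ : ∃ L0 : ℝ, L0 = (16 / ε) ^ 2 + 1 := ⟨_, rfl⟩
  have hL01 : 1 ≤ L0 := by rw [hL0]; nlinarith [sq_nonneg (16 / ε)]
  obtain ⟨δ, hδ⟩ : ∃ δ : ℝ, δ = Real.exp (-(L0 + 2 * |C|)) / 16 := ⟨_, rfl⟩
  have hδ0 : 0 < δ := by rw [hδ]; positivity
  have hδ1 : δ ≤ 1 / 16 := by
    rw [hδ]
    have : Real.exp (-(L0 + 2 * |C|)) ≤ 1 := Real.exp_le_one_iff.2 (by
      have := abs_nonneg C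
      linarith)
    linarith
  have hτ0 : (0 : ℝ) < τ := by exact_mod_cast (by omega : 0 < τ)
  have hτ1 : (1 : ℝ) ≤ τ := by exact_mod_cast hτ
  have hDr : (1 : ℝ) ≤ D := by exact_mod_cast hD1
  obtain ⟨ρ, hρ⟩ : ∃ ρ : ℝ, ρ = δ / (32 * τ * D) := ⟨_, rfl⟩
  have hρ0 : 0 < ρ := by rw [hρ]; positivity
  have hρ1 : ρ ≤ 1 / 4 := by
    rw [hρ, div_le_div_iff₀ (by positivity) (by norm_num)]
    have : (1 : ℝ) ≤ τ * D := by nlinarith
    nlinarith
  obtain ⟨κ, hκ⟩ : ∃ κ : ℝ, κ = ρ * (δ / (4 * τ)) := ⟨_, rfl⟩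
  have hκ0 : 0 < κ := by rw [hκ]; positivity
  have hκδ : κ ≤ δ := by
    rw [hκ]
    have h1 : δ / (4 * τ) ≤ δ := by
      rw [div_le_iff₀ (by positivity)]
      nlinarith
    calc ρ * (δ / (4 * τ)) ≤ 1 * (δ / (4 * τ)) := mul_le_mul_of_nonneg_right (by linarith) (by positivity)
      _ ≤ δ := by linarith
  obtain ⟨η, hη⟩ : ∃ η : ℝ, η = ε / 4 := ⟨_, rfl⟩
  have hη0 : 0 < η := by rw [hη]; positivity
  -- the exceptional set
  obtain ⟨CE, hCE0, hCE⟩ := sparse hτ hc hL hρ0 hρ1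
  obtain ⟨K₀, hK₀⟩ := Pool.Agent.N733.TG.keep_good_nat (fun _ => True) (fun n => n ∉ EE θ τ ρ)
    hf.lm (G := fun v => (v : ℝ)) (d := 1) ⟨le_rfl, ⟨1, one_pos, fun v _ => by push_cast; linarith⟩,
      ⟨1, fun v _ => by rw [Real.rpow_one, one_mul]⟩⟩ (s := 1 - 2 * ρ) (κ := 0) (by linarith) le_rfl
    (by linarith) (by
      intro ε' hε'
      refine ⟨CE, fun X hX => ?_⟩
      have hX1 : (1 : ℝ) ≤ X := by exact_mod_cast hX
      refine le_trans (le_of_eq ?_) ((hCE X hX).trans ?_)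
      · congr 2
        ext u
        simp only [Set.mem_ofPred_eq, not_not, true_and]
      · exact mul_le_mul_of_nonneg_left
          (Real.rpow_le_rpow_of_exponent_le hX1 (by linarith)) hCE0) 1
  have hK1 : ∀ᶠ K : ℕ in atTop, 1 / η ≤ Real.log K :=
    (Real.tendsto_log_atTop.comp tendsto_natCast_atTop_atTop).eventually_ge_atTop _
  obtain ⟨K₁, hK₁⟩ := eventually_atTop.1 hK1
  have hdens : ∀ K : ℕ, K₀ + K₁ + 1 ≤ K →
      ({m : ℕ | 1 ≤ m ∧ m ≤ K ∧ f m ∈ EE θ τ ρ}.ncard : ℝ) ≤ η * K := by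
    intro K hK
    have h1 := hK₀ K (by omega)
    have hfin : {m : ℕ | 1 ≤ m ∧ m ≤ K ∧ ¬ ∀ n : ℕ, 1 ≤ n → True → |(n : ℝ) - (f m : ℝ)| ≤
        (f m : ℝ) ^ (0 : ℝ) → n ∉ EE θ τ ρ}.Finite := by
      apply (Set.finite_Icc 1 K).subset
      intro m hm
      exact ⟨hm.1, hm.2.1⟩
    have hsub : {m : ℕ | 1 ≤ m ∧ m ≤ K ∧ f m ∈ EE θ τ ρ} ⊆ {m : ℕ | 1 ≤ m ∧ m ≤ K ∧
        ¬ ∀ n : ℕ, 1 ≤ n → True → |(n : ℝ) - (f m : ℝ)| ≤ (f m : ℝ) ^ (0 : ℝ) → n ∉ EE θ τ ρ} := by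
      rintro m ⟨h2, h3, h4⟩
      refine ⟨h2, h3, fun h5 => ?_⟩
      refine h5 (f m) (hf.pos m h2) trivial ?_ h4
      rw [sub_self, abs_zero]
      positivity
    have h2 : ({m : ℕ | 1 ≤ m ∧ m ≤ K ∧ f m ∈ EE θ τ ρ}.ncard : ℝ) ≤ K / Real.log K ^ 1 :=
      le_trans (by exact_mod_cast Set.ncard_le_ncard hsub hfin) h1
    refine h2.trans ?_
    have h3 := hK₁ K (by omega)
    have hKr : (0 : ℝ) ≤ K := Nat.cast_nonneg _
    have hlog : 0 < Real.log K := lt_of_lt_of_le (by positivity) h3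
    rw [pow_one, div_le_iff₀ hlog]
    rw [div_le_iff₀ hη0] at h3
    nlinarith
  have hbadof := bad_of hτ hc hL hδ0 (by linarith) (C := Cg) (D := D) hD1 hρ hκ
  -- numerical conditions
  have tp : ∀ s : ℝ, 0 < s → ∀ M : ℝ, ∀ᶠ N : ℕ in atTop, M ≤ (N : ℝ) ^ s := fun s hs M =>
    ((tendsto_rpow_atTop hs).comp tendsto_natCast_atTop_atTop).eventually_ge_atTop _
  have hlogs : ∀ᶠ N : ℕ in atTop, 1 + Real.log N ≤ (N : ℝ) ^ (κ / 8) := by
    have h1 := (isLittleO_log_rpow_atTop (show 0 < κ / 8 by positivity)).bound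
      (show (0 : ℝ) < 1 / 2 by norm_num)
    have h2 := tendsto_natCast_atTop_atTop.eventually h1
    filter_upwards [h2, tp (κ / 8) (by positivity) 2, eventually_ge_atTop 1] with N h3 h4 h5
    have h6 : (1 : ℝ) ≤ N := by exact_mod_cast h5
    rw [Real.norm_eq_abs, Real.norm_eq_abs, abs_of_nonneg (Real.log_nonneg h6),
      abs_of_nonneg (by positivity)] at h3
    linarith
  have t1 := tp δ hδ0 (P₀ + 3 + 48 / ε)
  have t2 := tp (1 / 16) (by norm_num) 3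
  have t3 := tp (1 / 2) (by norm_num) (K₀ + K₁ + 2)
  have t4 := tp (κ / 4) (by positivity) (64 / ε)
  filter_upwards [hbadof, hlogs, t1, t2, t3, t4, eventually_ge_atTop 3] with N hN1 hN2 hN3 hN4 hN5 hN6 hN7
  have hNr : (0 : ℝ) < N := by exact_mod_cast (by omega : 0 < N)
  have hN1r : (1 : ℝ) ≤ N := by exact_mod_cast (by omega : 1 ≤ N)
  obtain ⟨z, hz⟩ : ∃ z, z = ⌈(N : ℝ) ^ δ⌉₊ := ⟨_, rfl⟩
  obtain ⟨w, hw⟩ : ∃ w, w = ⌊(N : ℝ) ^ (1 / 4 : ℝ)⌋₊ := ⟨_, rfl⟩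
  obtain ⟨Δ, hΔ⟩ : ∃ Δ, Δ = ⌊(N : ℝ) ^ κ⌋₊ := ⟨_, rfl⟩
  have hzge : (N : ℝ) ^ δ ≤ z := by rw [hz]; exact Nat.le_ceil _
  have hNδ1 : 1 ≤ (N : ℝ) ^ δ := Real.one_le_rpow hN1r hδ0.le
  have hzle : (z : ℝ) ≤ 2 * (N : ℝ) ^ δ := by
    have : (z : ℝ) < (N : ℝ) ^ δ + 1 := by rw [hz]; exact Nat.ceil_lt_add_one (by positivity)
    linarith
  have hΔle : (Δ : ℝ) ≤ (N : ℝ) ^ κ := by rw [hΔ]; exact Nat.floor_le (by positivity)
  have hΔ1 : 1 ≤ Δ := by
    rw [hΔ]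
    exact Nat.one_le_floor_iff _ |>.2 (Real.one_le_rpow hN1r hκ0.le)
  have hΔge : (N : ℝ) ^ κ / 2 ≤ Δ := by
    have h1 := Nat.lt_floor_add_one ((N : ℝ) ^ κ)
    rw [← hΔ] at h1
    have h2 : (1 : ℝ) ≤ Δ := by exact_mod_cast hΔ1
    linarith
  have hΔz : Δ ≤ z := by
    have h1 : (Δ : ℝ) ≤ z := hΔle.trans ((Real.rpow_le_rpow_of_exponent_le hN1r hκδ).trans hzge)
    exact_mod_cast h1
  have hwle : (w : ℝ) ≤ (N : ℝ) ^ (1 / 4 : ℝ) := by rw [hw]; exact Nat.floor_le (by positivity)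
  have hN4' : (N : ℝ) ^ (1 / 8 : ℝ) = (N : ℝ) ^ (1 / 16 : ℝ) * (N : ℝ) ^ (1 / 16 : ℝ) := by
    rw [← Real.rpow_add hNr]
    norm_num
  have hN4'' : (N : ℝ) ^ (1 / 4 : ℝ) = (N : ℝ) ^ (1 / 8 : ℝ) * (N : ℝ) ^ (1 / 8 : ℝ) := by
    rw [← Real.rpow_add hNr]
    norm_num
  have hwge : (N : ℝ) ^ (1 / 8 : ℝ) ≤ w := by
    have h1 := Nat.lt_floor_add_one ((N : ℝ) ^ (1 / 4 : ℝ))
    rw [← hw] at h1
    have h2 : (9 : ℝ) ≤ (N : ℝ) ^ (1 / 8 : ℝ) := by rw [hN4']; nlinarith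
    rw [hN4''] at h1
    nlinarith
  have hzw : z ≤ w := by
    have h1 : (z : ℝ) ≤ w := by
      refine hzle.trans (le_trans ?_ hwge)
      have h2 : (N : ℝ) ^ δ ≤ (N : ℝ) ^ (1 / 16 : ℝ) := Real.rpow_le_rpow_of_exponent_le hN1r hδ1
      rw [hN4']
      nlinarith
    exact_mod_cast h1
  have hεp : 0 < 48 / ε := by positivity
  have hz3 : 3 ≤ z := by
    have h1 : (3 : ℝ) ≤ z := by
      have : (0 : ℝ) ≤ P₀ := Nat.cast_nonneg _
      linarith
    exact_mod_cast h1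
  have hzP : P₀ ≤ z := by
    have h1 : (P₀ : ℝ) ≤ z := by linarith
    exact_mod_cast h1
  obtain ⟨P, hP⟩ : ∃ P, P = PZ z w := ⟨_, rfl⟩
  have hPp : ∀ p ∈ P, p.Prime := fun p hp => by rw [hP, mem_PZ] at hp; exact hp.2
  have hPw : ∀ p ∈ P, z < p ∧ p ≤ w := fun p hp => by rw [hP, mem_PZ] at hp; exact hp.1
  -- the sum of the reciprocals
  have hLge : L0 ≤ LL P := by
    have h1 := LL_PZ hC hz3 hzw
    rw [← hP] at h1
    have hlN : 0 < Real.log N := Real.log_pos (by exact_mod_cast (by omega : 1 < N))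
    have hlz : 0 < Real.log z := Real.log_pos (by exact_mod_cast (by omega : 1 < z))
    have h2 : 1 / 8 * Real.log N ≤ Real.log w := by
      rw [← Real.log_rpow hNr]
      exact Real.log_le_log (by positivity) hwge
    have h3 : Real.log z ≤ 2 * δ * Real.log N := by
      rw [← Real.log_rpow hNr]
      apply Real.log_le_log (by exact_mod_cast (by omega : 0 < z))
      refine hzle.trans ?_
      have e1 : (N : ℝ) ^ (2 * δ) = (N : ℝ) ^ δ * (N : ℝ) ^ δ := by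
        rw [← Real.rpow_add hNr]
        congr 1
        ring
      rw [e1]
      apply mul_le_mul_of_nonneg_right _ (by positivity)
      have : (0 : ℝ) ≤ P₀ := Nat.cast_nonneg _
      linarith
    have h4 : Real.exp (L0 + 2 * |C|) ≤ Real.log w / Real.log z := by
      rw [le_div_iff₀ hlz]
      have h5 : Real.exp (L0 + 2 * |C|) * (2 * δ) = 1 / 8 := by
        rw [hδ, Real.exp_neg]
        field_simp
        norm_num
      calc Real.exp (L0 + 2 * |C|) * Real.log z ≤ Real.exp (L0 + 2 * |C|) * (2 * δ * Real.log N) :=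
            mul_le_mul_of_nonneg_left h3 (by positivity)
        _ = Real.exp (L0 + 2 * |C|) * (2 * δ) * Real.log N := by ring
        _ = 1 / 8 * Real.log N := by rw [h5]
        _ ≤ Real.log w := h2
    have h5 := Real.log_le_log (Real.exp_pos _) h4
    rw [Real.log_exp] at h5
    have := le_abs_self C
    linarith
  have hLpos : 0 < LL P := by linarith
  have hL1 : 1 ≤ LL P := by linarith
  have hcard : P.card ≤ w := by
    have h1 : P.card ≤ (Ioc z w).card := by rw [hP]; exact Finset.card_filter_le _ _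
    rw [Nat.card_Ioc] at h1
    omega
  have hww : (w : ℝ) * w ≤ (N : ℝ) ^ (1 / 2 : ℝ) := by
    have e1 : (N : ℝ) ^ (1 / 2 : ℝ) = (N : ℝ) ^ (1 / 4 : ℝ) * (N : ℝ) ^ (1 / 4 : ℝ) := by
      rw [← Real.rpow_add hNr]
      norm_num
    rw [e1]
    exact mul_le_mul hwle hwle (Nat.cast_nonneg _) (by positivity)
  have hwwN : w * w ≤ N := by
    have h1 : (w : ℝ) * w ≤ N := by
      refine hww.trans ?_
      calc (N : ℝ) ^ (1 / 2 : ℝ) ≤ (N : ℝ) ^ (1 : ℝ) :=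
            Real.rpow_le_rpow_of_exponent_le hN1r (by norm_num)
        _ = N := Real.rpow_one _
    exact_mod_cast h1
  have hcardN : ∀ p ∈ P, P.card ≤ N / p := by
    intro p hp
    have hp1 := hPw p hp
    rw [Nat.le_div_iff_mul_le (by omega)]
    exact (Nat.mul_le_mul hcard hp1.2).trans hwwN
  have hcardN' : P.card ≤ N := by
    refine hcard.trans (le_trans ?_ hwwN)
    exact Nat.le_mul_self w
  -- the bad integers
  have hbad : ∀ p ∈ P, ∀ q ∈ P, (((Ioc 0 (N / (p * q))).filter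
      (fun k => ¬ GoodK f γ b z Δ k)).card : ℝ) ≤ η * (N / (p * q)) := by
    intro p hp q hq
    have hp0 := (hPp p hp).pos
    have hq0 := (hPp q hq).pos
    have hp0' : (0 : ℝ) < p := by exact_mod_cast hp0
    have hq0' : (0 : ℝ) < q := by exact_mod_cast hq0
    obtain ⟨K, hK⟩ : ∃ K, K = N / (p * q) := ⟨_, rfl⟩
    rw [← hK]
    have hKle : (K : ℝ) ≤ N / (p * q) := by
      rw [hK]
      have h1 : ((N / (p * q) : ℕ) : ℝ) ≤ (N : ℝ) / ((p * q : ℕ) : ℝ) := Nat.cast_div_le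
      rwa [Nat.cast_mul] at h1
    have hKge : K₀ + K₁ + 1 ≤ K := by
      have h1 : (N : ℝ) / (p * q) < K + 1 := by
        rw [hK, div_lt_iff₀ (by positivity)]
        have h2 := Nat.lt_mul_div_succ N (Nat.mul_pos hp0 hq0)
        have h3 : (N : ℝ) < ((p * q * (N / (p * q) + 1) : ℕ) : ℝ) := by exact_mod_cast h2
        push_cast at h3
        linarith
      have h2 : (N : ℝ) ^ (1 / 2 : ℝ) ≤ (N : ℝ) / (p * q) := by
        rw [le_div_iff₀ (by positivity)]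
        have h3 : (p : ℝ) * q ≤ (N : ℝ) ^ (1 / 2 : ℝ) := by
          refine le_trans ?_ hww
          exact mul_le_mul (by exact_mod_cast (hPw p hp).2) (by exact_mod_cast (hPw q hq).2)
            hq0'.le (Nat.cast_nonneg _)
        calc (N : ℝ) ^ (1 / 2 : ℝ) * (p * q) ≤ (N : ℝ) ^ (1 / 2 : ℝ) * (N : ℝ) ^ (1 / 2 : ℝ) :=
              mul_le_mul_of_nonneg_left h3 (by positivity)
          _ = N := by
              rw [← Real.rpow_add hNr]
              norm_num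
      have h3 : ((K₀ + K₁ + 1 : ℕ) : ℝ) < K := by
        push_cast
        linarith
      exact_mod_cast h3.le
    have h1 : (((Ioc 0 K).filter (fun k => ¬ GoodK f γ b z Δ k)).card : ℝ) ≤
        ({m : ℕ | 1 ≤ m ∧ m ≤ K ∧ f m ∈ EE θ τ ρ}.ncard : ℝ) := by
      rw [← Set.ncard_coe_finset]
      have hfin : {m : ℕ | 1 ≤ m ∧ m ≤ K ∧ f m ∈ EE θ τ ρ}.Finite := by
        apply (Set.finite_Icc 1 K).subset
        intro m hm
        exact ⟨hm.1, hm.2.1⟩
      have hsub : (((Ioc 0 K).filter (fun k => ¬ GoodK f γ b z Δ k) : Finset ℕ) : Set ℕ) ⊆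
          {m : ℕ | 1 ≤ m ∧ m ≤ K ∧ f m ∈ EE θ τ ρ} := by
        intro k hk
        rw [Finset.mem_coe, mem_filter, mem_Ioc] at hk
        obtain ⟨⟨hk1, hk2⟩, hk3⟩ := hk
        unfold GoodK at hk3
        push Not at hk3
        obtain ⟨h, hh1, hh2, hh3⟩ := hk3
        refine ⟨hk1, hk2, hN1 z Δ hzge hΔle (f k) (hf.pos k hk1) ?_ h hh1 hh2 ?_⟩
        · refine (hgrow' k hk1).trans (Nat.mul_le_mul le_rfl (Nat.pow_le_pow_left ?_ _))
          refine hk2.trans ?_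
          rw [hK]
          exact Nat.div_le_self _ _
        · have e1 : θ * ((f k * h : ℕ) : ℝ) = γ * f k * b ^ 2 * h := by
            rw [hθ]
            push_cast
            ring
          rw [e1]
          exact hh3
      exact_mod_cast Set.ncard_le_ncard hsub hfin
    exact h1.trans ((hdens K hKge).trans (mul_le_mul_of_nonneg_left hKle hη0.le))
  have hmain := assembly hf (γ := γ) (b := b) (a := a) (z := z) (w := w) (Δ := Δ) (N := N) (P := P)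
    hPp hPw (fun p hp => hprime p (by have := (hPw p hp).1; omega) (hPp p hp)) hΔ1 hΔz (η := η) hbad
  have htwo := two_steps (P := P) hPp (N := N) hcardN hcardN' hLpos (h := fun m => e (γ * f m))
    (fun m => (norm_e _).le)
  -- numerical estimates
  obtain ⟨A, hA⟩ : ∃ A : ℝ, A = (Nat.log 2 w + 1) * (2 / Real.sqrt Δ) * (1 + Real.log N) := ⟨_, rfl⟩
  have hΔr : (0 : ℝ) < Δ := by exact_mod_cast (by omega : 0 < Δ)
  have hlN : 0 ≤ Real.log N := Real.log_nonneg hN1r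
  have hA0 : 0 ≤ A := by rw [hA]; positivity
  have hAle : A ≤ ε / 8 := by
    have h1 : (Nat.log 2 w : ℝ) ≤ 2 * Real.log N := by
      have h2 : (Nat.log 2 w : ℝ) ≤ Real.logb 2 w := Real.natLog_le_logb w 2
      have hw0 : (0 : ℝ) < w := by exact_mod_cast (by omega : 0 < w)
      have h3 : Real.logb 2 w = Real.log w / Real.log 2 := rfl
      have h4 : Real.log w ≤ Real.log N := by
        apply Real.log_le_log hw0
        have : w ≤ N := le_trans (Nat.le_mul_self w) hwwN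
        exact_mod_cast this
      have h5 := Real.log_two_gt_d9
      have h6 : Real.log w / Real.log 2 ≤ 2 * Real.log N := by
        rw [div_le_iff₀ (by linarith)]
        nlinarith
      linarith
    have h2 : (N : ℝ) ^ (κ / 2) / 2 ≤ Real.sqrt Δ := by
      apply Real.le_sqrt_of_sq_le
      have e1 : ((N : ℝ) ^ (κ / 2) / 2) ^ 2 = (N : ℝ) ^ κ / 4 := by
        rw [div_pow, ← Real.rpow_natCast, ← Real.rpow_mul hNr.le]
        norm_num
      rw [e1]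
      have : 0 < (N : ℝ) ^ κ := by positivity
      linarith
    have h3 : (Nat.log 2 w + 1) * (2 / Real.sqrt Δ) * (1 + Real.log N) ≤
        (2 * (N : ℝ) ^ (κ / 8)) * (2 / ((N : ℝ) ^ (κ / 2) / 2)) * (N : ℝ) ^ (κ / 8) := by
      have h4 : (Nat.log 2 w : ℝ) + 1 ≤ 2 * (N : ℝ) ^ (κ / 8) := by linarith
      have h5 : 2 / Real.sqrt Δ ≤ 2 / ((N : ℝ) ^ (κ / 2) / 2) :=
        div_le_div_of_nonneg_left (by norm_num) (by positivity) h2
      have h6 : ((Nat.log 2 w : ℝ) + 1) * (2 / Real.sqrt Δ) ≤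
          (2 * (N : ℝ) ^ (κ / 8)) * (2 / ((N : ℝ) ^ (κ / 2) / 2)) :=
        mul_le_mul h4 h5 (by positivity) (by positivity)
      exact mul_le_mul h6 hN2 (by positivity) (by positivity)
    rw [hA]
    refine h3.trans ?_
    have e1 : (2 * (N : ℝ) ^ (κ / 8)) * (2 / ((N : ℝ) ^ (κ / 2) / 2)) * (N : ℝ) ^ (κ / 8) =
        8 * ((N : ℝ) ^ (κ / 8) * (N : ℝ) ^ (κ / 8)) / (N : ℝ) ^ (κ / 2) := by
      field_simp
      norm_num
    have e2 : (N : ℝ) ^ (κ / 8) * (N : ℝ) ^ (κ / 8) = (N : ℝ) ^ (κ / 4) := by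
      rw [← Real.rpow_add hNr]
      congr 1
      ring
    have e3 : (N : ℝ) ^ (κ / 2) = (N : ℝ) ^ (κ / 4) * (N : ℝ) ^ (κ / 4) := by
      rw [← Real.rpow_add hNr]
      congr 1
      ring
    rw [e1, e2, e3]
    have h4 : 0 < (N : ℝ) ^ (κ / 4) := by positivity
    have e4 : 8 * (N : ℝ) ^ (κ / 4) / ((N : ℝ) ^ (κ / 4) * (N : ℝ) ^ (κ / 4)) = 8 / (N : ℝ) ^ (κ / 4) := by
      field_simp
    rw [e4, div_le_div_iff₀ h4 (by norm_num)]
    rw [div_le_iff₀ hε] at hN6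
    linarith
  have hzr : (0 : ℝ) < z := by exact_mod_cast (by omega : 0 < z)
  have hBle : 1 / LL P ^ 2 * ‖∑ p ∈ P, ∑ q ∈ P, ∑ k ∈ Ioc 0 (N / (p * q)), e (γ * f (p * q * k))‖ ≤
      6 * N / z + η * N + A * N := by
    have h1 : 1 / LL P ^ 2 * ‖∑ p ∈ P, ∑ q ∈ P, ∑ k ∈ Ioc 0 (N / (p * q)), e (γ * f (p * q * k))‖ ≤
        1 / LL P ^ 2 * (2 * (N * LL P / z + 2 * (N * LL P ^ 2 / z)) + η * (N * LL P ^ 2) +
        (Nat.log 2 w + 1) * (2 * N / Real.sqrt Δ) * (1 + Real.log N)) :=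
      mul_le_mul_of_nonneg_left hmain (by positivity)
    refine h1.trans ?_
    have e1 : (Nat.log 2 w + 1) * (2 * N / Real.sqrt Δ) * (1 + Real.log N) = A * N := by
      rw [hA]
      ring
    rw [e1]
    have e2 : 1 / LL P ^ 2 * (2 * (N * LL P / z + 2 * (N * LL P ^ 2 / z)) + η * (N * LL P ^ 2) + A * N) =
        2 * N / z * (1 / LL P) + 4 * N / z + η * N + A * N * (1 / LL P ^ 2) := by
      field_simp
      ring
    rw [e2]
    have h2 : 1 / LL P ≤ 1 := by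
      rw [div_le_one hLpos]
      exact hL1
    have h3 : 1 / LL P ^ 2 ≤ 1 := by
      rw [div_le_one (by positivity)]
      nlinarith
    have h4 : 2 * (N : ℝ) / z * (1 / LL P) ≤ 2 * N / z :=
      mul_le_of_le_one_right (by positivity) h2
    have h5 : A * N * (1 / LL P ^ 2) ≤ A * N := mul_le_of_le_one_right (by positivity) h3
    have e3 : 6 * (N : ℝ) / z = 2 * N / z + 4 * N / z := by ring
    linarith
  have h1 : 4 * (N : ℝ) / Real.sqrt (LL P) ≤ ε / 4 * N := by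
    have h2 : 16 / ε ≤ Real.sqrt (LL P) := by
      apply Real.le_sqrt_of_sq_le
      linarith
    rw [div_le_iff₀ (Real.sqrt_pos.2 hLpos)]
    have h3 : ε / 4 * N * (16 / ε) ≤ ε / 4 * N * Real.sqrt (LL P) :=
      mul_le_mul_of_nonneg_left h2 (by positivity)
    have e1 : ε / 4 * N * (16 / ε) = 4 * N := by
      field_simp
      norm_num
    linarith
  have h2 : 6 * (N : ℝ) / z ≤ ε / 8 * N := by
    rw [div_le_iff₀ hzr]
    have h3 : 48 / ε ≤ z := by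
      have : (0 : ℝ) ≤ P₀ := Nat.cast_nonneg _
      linarith
    have h4 : ε / 8 * N * (48 / ε) ≤ ε / 8 * N * z := mul_le_mul_of_nonneg_left h3 (by positivity)
    have e1 : ε / 8 * N * (48 / ε) = 6 * N := by
      field_simp
      norm_num
    linarith
  have h3 : A * N ≤ ε / 8 * N := mul_le_mul_of_nonneg_right hAle hNr.le
  have h4 : η * N = ε / 4 * N := by rw [hη]
  have h5 : 0 < ε * N := by positivity
  calc ‖∑ m ∈ Ioc 0 N, e (γ * f m)‖ ≤ _ := htwo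
    _ ≤ ε / 4 * N + (6 * N / z + η * N + A * N) := add_le_add h1 hBle
    _ ≤ ε * N := by linarith

end Pool.Agent.J4.H74.MulExp
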