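import Pool.Agent.N141.SG.Seq7
import Pool.Agent.J4.H74.MulExp.Main

/-! # Sequences `c f(t) + d`, `f` multiplicative with linear values at the primes -/

set_option autoImplicit false

namespace Pool.Agent.J4.H74.MulExp

open Finset Filter
open Pool.Agent.H469R2.NK (e norm_e e_add)
open Pool.Agent.N141.SG (SmallTo AlgSmall Tgt GoodN Ex badN badU near_seq one_seq tgt_of_freq)

/-- the exponential sums over `c f(t) + d` are small at all irrational algebraic frequencies -/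
theorem algSmall {f : ℕ → ℕ} (hf : Aff f) {c : ℕ} (hc : 1 ≤ c) (d : ℕ) :
    AlgSmall (fun N => Ioc N (2 * N)) (fun t => ((c * f t + d : ℕ) : ℤ)) := by
  intro θ hθ ha
  have hc0 : c ≠ 0 := by omega
  have hγ : Irrational (θ * c) := hθ.mul_natCast hc0
  have hγa : IsAlgebraic ℤ (θ * c) := by
    have h1 := ha.mul (isAlgebraic_intCast (R := ℤ) (A := ℝ) (c : ℤ))
    simpa using h1
  have key : SmallTo (fun N => Ioc N (2 * N)) (fun t => θ * c * f t) := by
    intro ε hε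
    have h1 := small hf hγ hγa (ε := ε / 3) (by positivity)
    have ht : Tendsto (fun N : ℕ => 2 * N) atTop atTop :=
      tendsto_atTop_mono (fun N => (by omega : N ≤ 2 * N)) tendsto_id
    have h2 := ht.eventually h1
    filter_upwards [h1, h2] with N hN1 hN2
    have h3 : Ioc 0 (2 * N) = Ioc 0 N ∪ Ioc N (2 * N) :=
      (Ioc_union_Ioc_eq_Ioc (Nat.zero_le _) (by omega)).symm
    have h4 : Disjoint (Ioc 0 N) (Ioc N (2 * N)) := by
      rw [Finset.disjoint_left]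
      intro x hx hx'
      rw [Finset.mem_Ioc] at hx hx'
      omega
    have e1 : ∑ m ∈ Ioc N (2 * N), e (θ * c * f m) =
        ∑ m ∈ Ioc 0 (2 * N), e (θ * c * f m) - ∑ m ∈ Ioc 0 N, e (θ * c * f m) := by
      rw [h3, sum_union h4]
      ring
    rw [e1, Nat.card_Ioc, show 2 * N - N = N by omega]
    refine (norm_sub_le _ _).trans ?_
    push_cast at hN2
    linarith
  have h5 := key.add_const (θ * d)
  have e2 : (fun t : ℕ => θ * (((c * f t + d : ℕ) : ℤ) : ℝ)) = fun t => θ * c * f t + θ * d := by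
    funext t
    push_cast
    ring
  rw [e2]
  exact h5

/-- all radicands at once -/
theorem tgt_mul {f : ℕ → ℕ} (hf : Aff f) {c : ℕ} (hc : 1 ≤ c) (d : ℕ) : ∀ᶠ N : ℕ in atTop,
    1 / 10000 ^ 22 * (N : ℝ) ≤
      ({t : ℕ | t ∈ Ioc N (2 * N) ∧ Tgt ((c * f t + d : ℕ) : ℤ)}.ncard : ℝ) := by
  have h := tgt_of_freq (s := fun N => Ioc N (2 * N)) (v := fun t => ((c * f t + d : ℕ) : ℤ))
    (fun θ hθ => algSmall hf hc d θ hθ.1 hθ.2.isAlgebraic)
  filter_upwards [h] with N hN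
  rw [Nat.card_Ioc, show 2 * N - N = N by omega] at hN
  exact hN

/-- near-uniform vectors -/
theorem near_mul {n : ℕ} (hn : 10 ≤ n) {f : ℕ → ℕ} (hf : Aff f) {c : ℕ} (hc : 1 ≤ c) (d : ℕ)
    {δ : ℝ} (hδ : 0 < δ) : ∀ᶠ N : ℕ in atTop,
      ({t : ℕ | t ∈ Ioc N (2 * N) ∧ ¬ GoodN n (c * f t + d)}.ncard : ℝ) ≤ (badN n + δ) * N := by
  filter_upwards [near_seq hn (algSmall hf hc d) hδ] with N hN
  rw [Nat.card_Ioc, show 2 * N - N = N by omega] at hN
  refine le_trans ?_ hN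
  have hsub : {t : ℕ | t ∈ Ioc N (2 * N) ∧ ¬ GoodN n (c * f t + d)} ⊆
      {t : ℕ | t ∈ Ioc N (2 * N) ∧ ∃ W : ℕ, 1 ≤ W ∧ (W : ℤ) = ((c * f t + d : ℕ) : ℤ) ∧
          ¬ GoodN n W} := by
    rintro t ⟨ht, hb⟩
    have h1 := hf.pos t (by have := (Finset.mem_Ioc.1 ht).1; omega)
    have h2 : 1 ≤ c * f t := Nat.mul_pos hc h1
    exact ⟨ht, c * f t + d, by omega, rfl, hb⟩
  exact_mod_cast Set.ncard_le_ncard hsub
    ((Finset.finite_toSet (Ioc N (2 * N))).subset fun n hn => hn.1)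

/-- one number of points -/
theorem one_mul' {n : ℕ} (hn : 10 ≤ n) {f : ℕ → ℕ} (hf : Aff f) {c : ℕ} (hc : 1 ≤ c) (d : ℕ)
    {δ : ℝ} (hδ : 0 < δ) : ∀ᶠ N : ℕ in atTop,
      ({t : ℕ | t ∈ Ioc N (2 * N) ∧ ¬ Ex n (c * f t + d)}.ncard : ℝ) ≤ (badU n + δ) * N := by
  filter_upwards [one_seq hn (algSmall hf hc d) hδ] with N hN
  rw [Nat.card_Ioc, show 2 * N - N = N by omega] at hN
  refine le_trans ?_ hN
  have hsub : {t : ℕ | t ∈ Ioc N (2 * N) ∧ ¬ Ex n (c * f t + d)} ⊆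
      {t : ℕ | t ∈ Ioc N (2 * N) ∧ ∃ m : ℕ, 1 ≤ m ∧ (m : ℤ) = ((c * f t + d : ℕ) : ℤ) ∧
          ¬ Ex n m} := by
    rintro t ⟨ht, hb⟩
    have h1 := hf.pos t (by have := (Finset.mem_Ioc.1 ht).1; omega)
    have h2 : 1 ≤ c * f t := Nat.mul_pos hc h1
    exact ⟨ht, c * f t + d, by omega, rfl, hb⟩
  exact_mod_cast Set.ncard_le_ncard hsub
    ((Finset.finite_toSet (Ioc N (2 * N))).subset fun n hn => hn.1)

theorem aff_totient : Aff Nat.totient :=
  ⟨fun m n h => Nat.totient_mul h, fun m hm => Nat.totient_pos.2 hm,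
    ⟨1, 1, fun m _ => by rw [one_mul, pow_one]; exact Nat.totient_le m⟩,
    ⟨0, 1, -1, le_rfl, fun p _ hp => by
      rw [Nat.totient_prime hp]
      have := hp.pos
      push_cast [Nat.cast_sub hp.one_le]
      ring⟩⟩

theorem aff_sigma : Aff (fun m => ∑ d ∈ m.divisors, d) := by
  have h := Pool.Agent.N733.TG.lm_sigma
  exact ⟨h.mul, h.pos, h.growth, ⟨0, 1, 1, le_rfl, fun p _ hp => by
    rw [Nat.Prime.sum_divisors hp]
    push_cast
    ring⟩⟩

end Pool.Agent.J4.H74.MulExp
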