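import Pool.Agent.J4.H74.MulExp.Bil

/-! Exponential sums over the values of multiplicative functions, part 3: the set of the integers `u` with
a small multiple `u h` for which `θ u h` is near an integer is sparse, for `θ` irrational algebraic. -/

set_option autoImplicit false

namespace Pool.Agent.J4.H74.MulExp

open Finset Filter

/-- Liouville's inequality -/
lemma liou {θ : ℝ} (hθ : Irrational θ) (ha : IsAlgebraic ℤ θ) : ∃ (τ : ℕ) (c : ℝ), 1 ≤ τ ∧ 0 < c ∧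
    ∀ h : ℕ, 1 ≤ h → ∀ k : ℤ, c / (h : ℝ) ^ τ ≤ |θ * h - k| := by
  obtain ⟨f, f0, fa⟩ := ha
  obtain ⟨A, hA, hL⟩ := Liouville.exists_pos_real_of_irrational_root hθ f0 (by
    rw [Polynomial.eval_map_algebraMap]
    exact fa)
  refine ⟨f.natDegree + 1, 1 / A, by omega, by positivity, ?_⟩
  intro h hh k
  obtain ⟨b, rfl⟩ : ∃ b, h = b + 1 := ⟨h - 1, by omega⟩
  have h2 := hL k b
  push_cast
  have hb : (1 : ℝ) ≤ (b : ℝ) + 1 := by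
    have : (0 : ℝ) ≤ b := Nat.cast_nonneg _
    linarith
  have h3 : |θ * ((b : ℝ) + 1) - k| = ((b : ℝ) + 1) * |θ - k / (b + 1)| := by
    rw [← abs_of_pos (show (0 : ℝ) < (b : ℝ) + 1 by linarith), ← abs_mul,
      abs_of_pos (show (0 : ℝ) < (b : ℝ) + 1 by linarith)]
    congr 1
    field_simp
  rw [h3, div_div, div_le_iff₀ (by positivity)]
  have h4 : (0 : ℝ) ≤ |θ - k / (b + 1)| := abs_nonneg _
  calc (1 : ℝ) ≤ ((b : ℝ) + 1) ^ f.natDegree * (|θ - k / (b + 1)| * A) := h2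
    _ ≤ ((b : ℝ) + 1) ^ (f.natDegree + 1) * (|θ - k / (b + 1)| * A) := by
        apply mul_le_mul_of_nonneg_right _ (by positivity)
        exact pow_le_pow_right₀ hb (Nat.le_succ _)
    _ ≤ ((b : ℝ) + 1) ^ (f.natDegree + 1) * (|θ - k / (b + 1)| * A) * ((b : ℝ) + 1) :=
        le_mul_of_one_le_right (by positivity) hb
    _ = ((b : ℝ) + 1) * |θ - k / (b + 1)| * (A * ((b : ℝ) + 1) ^ (f.natDegree + 1)) := by ring

/-- the exceptional integers -/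
def EE (θ : ℝ) (τ : ℕ) (ρ : ℝ) : Set ℕ :=
  {u | 1 ≤ u ∧ ∃ h : ℕ, 1 ≤ h ∧ (h : ℝ) ≤ (u : ℝ) ^ ρ ∧ ∃ k : ℤ,
    |θ * (u * h : ℕ) - k| ≤ (u : ℝ) ^ (-(8 * τ * ρ))}

open Classical in
/-- for one multiplier -/
lemma one_mult {θ : ℝ} {τ : ℕ} {c : ℝ} (hτ : 1 ≤ τ) (hc : 0 < c)
    (hL : ∀ h : ℕ, 1 ≤ h → ∀ k : ℤ, c / (h : ℝ) ^ τ ≤ |θ * h - k|) {ρ : ℝ} (hρ : 0 < ρ)
    {U h : ℕ} (hU : 1 ≤ U) (hh : 1 ≤ h) (hhU : (h : ℝ) ≤ (U : ℝ) ^ ρ) :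
    (((Icc 1 U).filter (fun u => ∃ k : ℤ, |θ * (u * h : ℕ) - k| ≤ (U : ℝ) ^ (-(4 * τ * ρ)))).card : ℝ) ≤
      4 / (c / 2) ^ (1 / (τ : ℝ)) * (U : ℝ) ^ (1 - 3 * ρ) + 1 := by
  obtain ⟨R, hR⟩ : ∃ R, R = (Icc 1 U).filter
    (fun u => ∃ k : ℤ, |θ * (u * h : ℕ) - k| ≤ (U : ℝ) ^ (-(4 * τ * ρ))) := ⟨_, rfl⟩
  rw [← hR]
  have hU0 : (0 : ℝ) < U := by exact_mod_cast hU
  have hτ0 : (0 : ℝ) < τ := by exact_mod_cast (by omega : 0 < τ)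
  have hh0 : (0 : ℝ) < h := by exact_mod_cast (by omega : 0 < h)
  obtain ⟨c', hc'⟩ : ∃ c', c' = (c / 2) ^ (1 / (τ : ℝ)) := ⟨_, rfl⟩
  have hc'0 : 0 < c' := by rw [hc']; positivity
  obtain ⟨s, hs⟩ : ∃ s, s = c' * (U : ℝ) ^ (3 * ρ) := ⟨_, rfl⟩
  have hs0 : 0 < s := by rw [hs]; positivity
  have hsp : ∀ r ∈ R, ∀ u ∈ R, r < u → s ≤ ((u - r : ℕ) : ℝ) := by
    intro r hr u hu hru
    rw [hR, mem_filter] at hr hu
    obtain ⟨k, hk⟩ := hr.2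
    obtain ⟨l, hl⟩ := hu.2
    have h1 : 1 ≤ (u - r) * h := Nat.mul_pos (by omega) (by omega)
    have h2 := hL ((u - r) * h) h1 (l - k)
    have h3 : |θ * (((u - r) * h : ℕ) : ℝ) - ((l - k : ℤ) : ℝ)| ≤ 2 * (U : ℝ) ^ (-(4 * τ * ρ)) := by
      have e1 : θ * (((u - r) * h : ℕ) : ℝ) - ((l - k : ℤ) : ℝ) =
          (θ * ((u * h : ℕ) : ℝ) - l) - (θ * ((r * h : ℕ) : ℝ) - k) := by
        push_cast [Nat.cast_sub hru.le]
        ring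
      rw [e1]
      have := abs_sub (θ * ((u * h : ℕ) : ℝ) - l) (θ * ((r * h : ℕ) : ℝ) - k)
      linarith
    have h4 := h2.trans h3
    obtain ⟨y, hy⟩ : ∃ y : ℝ, y = (((u - r) * h : ℕ) : ℝ) := ⟨_, rfl⟩
    rw [← hy] at h4
    have hy0 : 0 < y := by rw [hy]; exact_mod_cast h1
    rw [div_le_iff₀ (by positivity), Real.rpow_neg hU0.le] at h4
    have h5 : c / 2 * (U : ℝ) ^ (4 * τ * ρ) ≤ y ^ (τ : ℕ) := by
      have hp : 0 < (U : ℝ) ^ (4 * τ * ρ) := by positivity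
      have h6 : c * (U : ℝ) ^ (4 * τ * ρ) ≤ 2 * y ^ τ := by
        calc c * (U : ℝ) ^ (4 * τ * ρ) ≤ (2 * ((U : ℝ) ^ (4 * τ * ρ))⁻¹ * y ^ τ) *
              (U : ℝ) ^ (4 * τ * ρ) := mul_le_mul_of_nonneg_right h4 hp.le
          _ = 2 * y ^ τ := by field_simp
      linarith
    have h6 : c' * (U : ℝ) ^ (4 * ρ) ≤ y := by
      have h7 := Real.rpow_le_rpow (by positivity) h5 (by positivity : (0 : ℝ) ≤ 1 / (τ : ℝ))
      rw [← Real.rpow_natCast, ← Real.rpow_mul hy0.le, mul_one_div, div_self hτ0.ne', Real.rpow_one,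
        Real.mul_rpow (by positivity) (by positivity), ← Real.rpow_mul hU0.le] at h7
      have e1 : 4 * τ * ρ * (1 / (τ : ℝ)) = 4 * ρ := by field_simp
      rw [e1, ← hc'] at h7
      exact h7
    have h7 : y = ((u - r : ℕ) : ℝ) * h := by rw [hy]; push_cast; ring
    rw [h7] at h6
    have h8 : c' * (U : ℝ) ^ (4 * ρ) ≤ ((u - r : ℕ) : ℝ) * (U : ℝ) ^ ρ :=
      h6.trans (mul_le_mul_of_nonneg_left hhU (Nat.cast_nonneg _))
    have e2 : (U : ℝ) ^ (4 * ρ) = (U : ℝ) ^ (3 * ρ) * (U : ℝ) ^ ρ := by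
      rw [← Real.rpow_add hU0]
      congr 1
      ring
    rw [e2, ← mul_assoc] at h8
    rw [hs]
    exact le_of_mul_le_mul_right h8 (by positivity)
  have e3 : 4 / c' * (U : ℝ) ^ (1 - 3 * ρ) = 4 * U / s := by
    rw [hs, Real.rpow_sub hU0, Real.rpow_one]
    field_simp
  rw [← hc', e3]
  rcases lt_or_ge s 2 with h2 | h2
  · have h3 : (R.card : ℝ) ≤ U := by
      have : R.card ≤ (Icc 1 U).card := by rw [hR]; exact Finset.card_filter_le _ _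
      rw [Nat.card_Icc] at this
      exact_mod_cast (by omega : R.card ≤ U)
    have h4 : (U : ℝ) ≤ 4 * U / s := by
      rw [le_div_iff₀ hs0]
      nlinarith
    linarith
  · obtain ⟨S, hS⟩ : ∃ S, S = ⌊s / 2⌋₊ := ⟨_, rfl⟩
    have hS1 : 1 ≤ S := by
      rw [hS]
      exact Nat.one_le_floor_iff _ |>.2 (by linarith)
    have hS2 : (S : ℝ) ≤ s / 2 := by
      rw [hS]
      exact Nat.floor_le (by positivity)
    have hS3 : s / 4 ≤ S := by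
      have h3 := Nat.lt_floor_add_one (s / 2)
      rw [← hS] at h3
      have h4 : (1 : ℝ) ≤ S := by exact_mod_cast hS1
      linarith
    have h3 := card_spaced (R := R) (X := U) hS1 (by
      intro r hr
      rw [hR, mem_filter, mem_Icc] at hr
      exact hr.1.2) (by
      intro r hr u hu hru
      have h4 := hsp r hr u hu hru
      have h5 : (S : ℝ) < ((u - r : ℕ) : ℝ) := by linarith
      exact_mod_cast h5)
    have h4 : (R.card : ℝ) ≤ ((U / S : ℕ) : ℝ) + 1 := by exact_mod_cast h3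
    have h5 : ((U / S : ℕ) : ℝ) ≤ U / S := Nat.cast_div_le
    have h6 : (U : ℝ) / S ≤ 4 * U / s := by
      rw [div_le_div_iff₀ (by exact_mod_cast (by omega : 0 < S)) hs0]
      nlinarith
    linarith

/-- **the exceptional integers are sparse** -/
theorem sparse {θ : ℝ} {τ : ℕ} {c : ℝ} (hτ : 1 ≤ τ) (hc : 0 < c)
    (hL : ∀ h : ℕ, 1 ≤ h → ∀ k : ℤ, c / (h : ℝ) ^ τ ≤ |θ * h - k|) {ρ : ℝ} (hρ : 0 < ρ) (hρ1 : ρ ≤ 1 / 4) :
    ∃ C : ℝ, 0 ≤ C ∧ ∀ U : ℕ, 1 ≤ U →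
      ({u : ℕ | 1 ≤ u ∧ u ≤ U ∧ u ∈ EE θ τ ρ}.ncard : ℝ) ≤ C * (U : ℝ) ^ (1 - 2 * ρ) := by
  classical
  obtain ⟨K, hK⟩ : ∃ K, K = 4 / (c / 2) ^ (1 / (τ : ℝ)) := ⟨_, rfl⟩
  have hK0 : 0 < K := by rw [hK]; positivity
  refine ⟨K + 2, by positivity, fun U hU => ?_⟩
  have hU0 : (0 : ℝ) < U := by exact_mod_cast hU
  have hU1 : (1 : ℝ) ≤ U := by exact_mod_cast hU
  obtain ⟨W, hW⟩ : ∃ W, W = fun h : ℕ => (Icc 1 U).filter
    (fun u => ∃ k : ℤ, |θ * (u * h : ℕ) - k| ≤ (U : ℝ) ^ (-(4 * τ * ρ))) := ⟨_, rfl⟩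
  obtain ⟨H, hH⟩ : ∃ H, H = ⌊(U : ℝ) ^ ρ⌋₊ := ⟨_, rfl⟩
  have hHr : (H : ℝ) ≤ (U : ℝ) ^ ρ := by
    rw [hH]
    exact Nat.floor_le (by positivity)
  have hsub : {u : ℕ | 1 ≤ u ∧ u ≤ U ∧ u ∈ EE θ τ ρ} ⊆
      (((Icc 1 ⌊Real.sqrt U⌋₊) ∪ (Icc 1 H).biUnion W : Finset ℕ) : Set ℕ) := by
    rintro u ⟨h1, h2, -, h, h3, h4, k, h5⟩
    rw [Finset.mem_coe, Finset.mem_union, mem_Icc, Finset.mem_biUnion]
    have hu0 : (0 : ℝ) < u := by exact_mod_cast h1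
    have huU : (u : ℝ) ≤ U := by exact_mod_cast h2
    rcases le_or_gt (u : ℝ) (Real.sqrt U) with h6 | h6
    · left
      exact ⟨h1, Nat.le_floor h6⟩
    · right
      refine ⟨h, ?_, ?_⟩
      · rw [mem_Icc]
        refine ⟨h3, ?_⟩
        rw [hH]
        exact Nat.le_floor (h4.trans (Real.rpow_le_rpow hu0.le huU hρ.le))
      · rw [hW, mem_filter, mem_Icc]
        refine ⟨⟨h1, h2⟩, k, h5.trans ?_⟩
        have e1 : (U : ℝ) ^ (-(4 * τ * ρ)) = (Real.sqrt U) ^ (-(8 * τ * ρ)) := by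
          rw [Real.sqrt_eq_rpow, ← Real.rpow_mul hU0.le]
          congr 1
          ring
        rw [e1]
        apply Real.rpow_le_rpow_of_nonpos (Real.sqrt_pos.2 hU0) h6.le
        have : 0 ≤ 8 * (τ : ℝ) * ρ := by positivity
        linarith
  have h1 := Set.ncard_le_ncard hsub (Finset.finite_toSet _)
  rw [Set.ncard_coe_finset] at h1
  have h2 := h1.trans (Finset.card_union_le _ _)
  have h3 : (((Icc 1 H).biUnion W).card : ℝ) ≤ (U : ℝ) ^ ρ * (K * (U : ℝ) ^ (1 - 3 * ρ) + 1) := by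
    have h4 : ((Icc 1 H).biUnion W).card ≤ ∑ h ∈ Icc 1 H, (W h).card := Finset.card_biUnion_le
    have h5 : ∀ h ∈ Icc 1 H, ((W h).card : ℝ) ≤ K * (U : ℝ) ^ (1 - 3 * ρ) + 1 := by
      intro h hh
      rw [mem_Icc] at hh
      have h6 : (h : ℝ) ≤ (U : ℝ) ^ ρ := le_trans (by exact_mod_cast hh.2) hHr
      have h7 := one_mult hτ hc hL hρ hU hh.1 h6
      rw [hW, hK]
      exact h7
    have h6 : (∑ h ∈ Icc 1 H, ((W h).card : ℝ)) ≤ H * (K * (U : ℝ) ^ (1 - 3 * ρ) + 1) := by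
      refine (Finset.sum_le_sum h5).trans ?_
      rw [Finset.sum_const, Nat.card_Icc, nsmul_eq_mul]
      simp
    calc (((Icc 1 H).biUnion W).card : ℝ) ≤ ∑ h ∈ Icc 1 H, ((W h).card : ℝ) := by exact_mod_cast h4
      _ ≤ H * (K * (U : ℝ) ^ (1 - 3 * ρ) + 1) := h6
      _ ≤ (U : ℝ) ^ ρ * (K * (U : ℝ) ^ (1 - 3 * ρ) + 1) :=
          mul_le_mul_of_nonneg_right hHr (by positivity)
  have h4 : ((Icc 1 ⌊Real.sqrt U⌋₊).card : ℝ) ≤ (U : ℝ) ^ (1 - 2 * ρ) := by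
    rw [Nat.card_Icc, Nat.add_sub_cancel]
    refine (Nat.floor_le (Real.sqrt_nonneg _)).trans ?_
    rw [Real.sqrt_eq_rpow]
    exact Real.rpow_le_rpow_of_exponent_le hU1 (by linarith)
  have h5 : (U : ℝ) ^ ρ * (K * (U : ℝ) ^ (1 - 3 * ρ) + 1) ≤ (K + 1) * (U : ℝ) ^ (1 - 2 * ρ) := by
    have e1 : (U : ℝ) ^ ρ * (K * (U : ℝ) ^ (1 - 3 * ρ) + 1) =
        K * ((U : ℝ) ^ ρ * (U : ℝ) ^ (1 - 3 * ρ)) + (U : ℝ) ^ ρ := by ring
    have e2 : (U : ℝ) ^ ρ * (U : ℝ) ^ (1 - 3 * ρ) = (U : ℝ) ^ (1 - 2 * ρ) := by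
      rw [← Real.rpow_add hU0]
      congr 1
      ring
    have h6 : (U : ℝ) ^ ρ ≤ (U : ℝ) ^ (1 - 2 * ρ) :=
      Real.rpow_le_rpow_of_exponent_le hU1 (by linarith)
    rw [e1, e2]
    linarith
  have h6 : ({u : ℕ | 1 ≤ u ∧ u ≤ U ∧ u ∈ EE θ τ ρ}.ncard : ℝ) ≤
      ((Icc 1 ⌊Real.sqrt U⌋₊).card : ℝ) + (((Icc 1 H).biUnion W).card : ℝ) := by exact_mod_cast h2
  linarith

end Pool.Agent.J4.H74.MulExp
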